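import Mathlib

set_option autoImplicit false

namespace Pool.Agent.Strips47

open MeasureTheory Real

/-- If `|sin x|` is small and `|x| ≤ π`, then `x` is close to `0`, `π` or `-π`. -/
lemma near_of_sin (x η : ℝ) (hx : |x| ≤ π) (hs : |sin x| ≤ η) :
    |x| ≤ π * η / 2 ∨ |x - π| ≤ π * η / 2 ∨ |x + π| ≤ π * η / 2 := by
  have hpi := Real.pi_pos
  -- key inequality
  have key : ∀ y : ℝ, 0 ≤ y → y ≤ π / 2 → sin y ≤ η → y ≤ π * η / 2 := by
    intro y h0 h1 h2
    have h3 := Real.mul_le_sin h0 h1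
    have h4 : 2 / π * y ≤ η := le_trans h3 h2
    have h5 : 2 * y ≤ η * π := by
      rw [div_mul_eq_mul_div, div_le_iff₀ hpi] at h4
      exact h4
    linarith
  rw [abs_le] at hx hs
  rcases le_total 0 x with h0 | h0
  · rcases le_total x (π / 2) with h1 | h1
    · left
      rw [abs_of_nonneg h0]
      exact key x h0 h1 hs.2
    · right; left
      rw [abs_sub_comm, abs_of_nonneg (by linarith)]
      apply key (π - x) (by linarith) (by linarith)
      rw [Real.sin_pi_sub]; exact hs.2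
  · rcases le_total (-(π / 2)) x with h1 | h1
    · left
      rw [abs_of_nonpos h0]
      apply key (-x) (by linarith) (by linarith)
      rw [Real.sin_neg]; linarith [hs.1]
    · right; right
      rw [abs_of_nonneg (by linarith)]
      apply key (x + π) (by linarith) (by linarith)
      rw [Real.sin_add_pi]; linarith [hs.1]

/-- The set of angles for which `(k, l)` is almost orthogonal to the unit vector. -/
def arc (k l δ : ℝ) : Set ℝ := {θ | θ ∈ Set.Icc 0 π ∧ |cos θ * k + sin θ * l| ≤ δ}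

lemma arc_subset (k l δ ρ : ℝ) (hρ : 0 < ρ) (hkl : ρ ^ 2 ≤ k ^ 2 + l ^ 2) :
    ∃ θ₀ : ℝ, arc k l δ ⊆ Set.Icc (θ₀ - π * (δ / ρ) / 2) (θ₀ + π * (δ / ρ) / 2) ∪
      (Set.Icc (θ₀ + π - π * (δ / ρ) / 2) (θ₀ + π + π * (δ / ρ) / 2) ∪
      Set.Icc (θ₀ - π - π * (δ / ρ) / 2) (θ₀ - π + π * (δ / ρ) / 2)) := by
  have hcont : ContinuousOn (fun θ : ℝ => cos θ * k + sin θ * l) (Set.uIcc 0 π) := by fun_prop
  have hiv := intermediate_value_uIcc hcont
  have h0 : (0 : ℝ) ∈ Set.uIcc (cos 0 * k + sin 0 * l) (cos π * k + sin π * l) := by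
    simp only [Real.cos_zero, Real.sin_zero, Real.cos_pi, Real.sin_pi]
    rw [Set.mem_uIcc]
    rcases le_total 0 k with h | h
    · right; constructor <;> linarith
    · left; constructor <;> linarith
  obtain ⟨θ₀, hθ₀, hz⟩ := hiv h0
  rw [Set.uIcc_of_le Real.pi_pos.le] at hθ₀
  have hz' : cos θ₀ * k + sin θ₀ * l = 0 := hz
  refine ⟨θ₀, ?_⟩
  rintro θ ⟨hθ, hθδ⟩
  set D : ℝ := -sin θ₀ * k + cos θ₀ * l with hD
  have hD2 : D ^ 2 = k ^ 2 + l ^ 2 := by
    have h1 : D ^ 2 + (cos θ₀ * k + sin θ₀ * l) ^ 2 = k ^ 2 + l ^ 2 := by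
      rw [hD]
      have := Real.sin_sq_add_cos_sq θ₀
      linear_combination (k ^ 2 + l ^ 2) * this
    rw [hz'] at h1
    linarith
  have hDρ : ρ ≤ |D| := by
    rw [← abs_of_pos hρ]
    exact sq_le_sq.mp (by rw [hD2]; exact hkl)
  have hexp : cos θ * k + sin θ * l = D * sin (θ - θ₀) := by
    have h1 : cos θ * k + sin θ * l =
        (cos θ₀ * k + sin θ₀ * l) * cos (θ - θ₀) + D * sin (θ - θ₀) := by
      rw [hD, Real.cos_sub, Real.sin_sub]
      have := Real.sin_sq_add_cos_sq θ₀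
      linear_combination (-(cos θ * k + sin θ * l)) * this
    rw [h1, hz']; ring
  have hs : |sin (θ - θ₀)| ≤ δ / ρ := by
    rw [le_div_iff₀ hρ]
    calc |sin (θ - θ₀)| * ρ ≤ |sin (θ - θ₀)| * |D| :=
          mul_le_mul_of_nonneg_left hDρ (abs_nonneg _)
      _ = |cos θ * k + sin θ * l| := by rw [hexp, abs_mul, mul_comm]
      _ ≤ δ := hθδ
  have hx : |θ - θ₀| ≤ π := by
    rw [abs_le]; constructor <;> linarith [hθ.1, hθ.2, hθ₀.1, hθ₀.2]
  rcases near_of_sin (θ - θ₀) (δ / ρ) hx hs with h | h | h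
  · left; rw [abs_le] at h; constructor <;> linarith [h.1, h.2]
  · right; left; rw [abs_le] at h; constructor <;> linarith [h.1, h.2]
  · right; right; rw [abs_le] at h; constructor <;> linarith [h.1, h.2]

lemma volume_arc_le (k l δ ρ : ℝ) (hρ : 0 < ρ) (hkl : ρ ^ 2 ≤ k ^ 2 + l ^ 2) (hδ : 0 ≤ δ) :
    volume (arc k l δ) ≤ ENNReal.ofReal (3 * π * δ / ρ) := by
  obtain ⟨θ₀, hsub⟩ := arc_subset k l δ ρ hρ hkl
  have hpi := Real.pi_pos
  have h0 : 0 ≤ π * (δ / ρ) := by positivity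
  calc volume (arc k l δ) ≤ _ := measure_mono hsub
    _ ≤ volume (Set.Icc (θ₀ - π * (δ / ρ) / 2) (θ₀ + π * (δ / ρ) / 2)) +
      (volume (Set.Icc (θ₀ + π - π * (δ / ρ) / 2) (θ₀ + π + π * (δ / ρ) / 2)) +
      volume (Set.Icc (θ₀ - π - π * (δ / ρ) / 2) (θ₀ - π + π * (δ / ρ) / 2))) :=
        (measure_union_le _ _).trans (add_le_add le_rfl (measure_union_le _ _))
    _ = ENNReal.ofReal (3 * π * δ / ρ) := by
        rw [Real.volume_Icc, Real.volume_Icc, Real.volume_Icc]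
        rw [show θ₀ + π * (δ / ρ) / 2 - (θ₀ - π * (δ / ρ) / 2) = π * (δ / ρ) by ring,
          show θ₀ + π + π * (δ / ρ) / 2 - (θ₀ + π - π * (δ / ρ) / 2) = π * (δ / ρ) by ring,
          show θ₀ - π + π * (δ / ρ) / 2 - (θ₀ - π - π * (δ / ρ) / 2) = π * (δ / ρ) by ring,
          ← ENNReal.ofReal_add h0 h0, ← ENNReal.ofReal_add h0 (by positivity)]
        congr 1
        ring

/-- Union bound over integer vectors whose first coordinate is the larger one. -/
lemma volume_union_le (A : ℤ → ℤ → Set ℝ) (c : ℝ) (hc : 0 ≤ c)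
    (hA : ∀ k l : ℤ, k ≠ 0 → volume (A k l) ≤ ENNReal.ofReal (c / |(k : ℝ)|)) (R : ℕ) :
    volume (⋃ k ∈ (Finset.Icc (-(R : ℤ)) R).erase 0, ⋃ l ∈ Finset.Icc (-|k|) |k|, A k l) ≤
      ENNReal.ofReal (6 * c * R) := by
  classical
  have hcardF : ((Finset.Icc (-(R : ℤ)) R).erase 0).card = 2 * R := by
    rw [Finset.card_erase_of_mem (by simp), Int.card_Icc]
    have : ((R : ℤ) + 1 - -(R : ℤ)).toNat = 2 * R + 1 := by omega
    rw [this]; rfl
  have hin : ∀ k ∈ (Finset.Icc (-(R : ℤ)) R).erase 0,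
      volume (⋃ l ∈ Finset.Icc (-|k|) |k|, A k l) ≤ ENNReal.ofReal (3 * c) := by
    intro k hk
    have hk0 : k ≠ 0 := (Finset.mem_erase.mp hk).1
    have hkpos : 0 < |k| := abs_pos.mpr hk0
    have hkR : (0 : ℝ) < |(k : ℝ)| := abs_pos.mpr (by exact_mod_cast hk0)
    have hkR1 : (1 : ℝ) ≤ |(k : ℝ)| := by
      have : ((1 : ℤ) : ℝ) ≤ ((|k| : ℤ) : ℝ) := by exact_mod_cast hkpos
      simpa using this
    calc volume (⋃ l ∈ Finset.Icc (-|k|) |k|, A k l)
        ≤ ∑ l ∈ Finset.Icc (-|k|) |k|, volume (A k l) := measure_biUnion_finset_le _ _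
      _ ≤ ∑ l ∈ Finset.Icc (-|k|) |k|, ENNReal.ofReal (c / |(k : ℝ)|) :=
          Finset.sum_le_sum (fun l _ => hA k l hk0)
      _ = ((Finset.Icc (-|k|) |k|).card : ENNReal) * ENNReal.ofReal (c / |(k : ℝ)|) := by
          rw [Finset.sum_const, nsmul_eq_mul]
      _ = ENNReal.ofReal (((Finset.Icc (-|k|) |k|).card : ℝ) * (c / |(k : ℝ)|)) := by
          rw [ENNReal.ofReal_mul (by positivity), ENNReal.ofReal_natCast]
      _ ≤ ENNReal.ofReal (3 * c) := by
          apply ENNReal.ofReal_le_ofReal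
          have hcard : ((Finset.Icc (-|k|) |k|).card : ℝ) = 2 * |(k : ℝ)| + 1 := by
            rw [Int.card_Icc]
            have h1 : (((|k| + 1 - -|k|).toNat : ℤ)) = 2 * |k| + 1 := by
              rw [Int.toNat_of_nonneg (by omega)]; ring
            have h2 : ((((|k| + 1 - -|k|).toNat : ℤ)) : ℝ) = ((2 * |k| + 1 : ℤ) : ℝ) := by rw [h1]
            push_cast at h2
            exact h2
          rw [hcard]
          have : (2 * |(k : ℝ)| + 1) * (c / |(k : ℝ)|) ≤ (3 * |(k : ℝ)|) * (c / |(k : ℝ)|) := by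
            apply mul_le_mul_of_nonneg_right (by linarith) (by positivity)
          calc _ ≤ _ := this
            _ = 3 * c := by field_simp
  calc volume (⋃ k ∈ (Finset.Icc (-(R : ℤ)) R).erase 0, ⋃ l ∈ Finset.Icc (-|k|) |k|, A k l)
      ≤ ∑ k ∈ (Finset.Icc (-(R : ℤ)) R).erase 0, volume (⋃ l ∈ Finset.Icc (-|k|) |k|, A k l) :=
        measure_biUnion_finset_le _ _
    _ ≤ ∑ k ∈ (Finset.Icc (-(R : ℤ)) R).erase 0, ENNReal.ofReal (3 * c) := Finset.sum_le_sum hin
    _ = ((2 * R : ℕ) : ENNReal) * ENNReal.ofReal (3 * c) := by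
        rw [Finset.sum_const, nsmul_eq_mul, hcardF]
    _ = ENNReal.ofReal (((2 * R : ℕ) : ℝ) * (3 * c)) := by
        rw [ENNReal.ofReal_mul (p := ((2 * R : ℕ) : ℝ)) (by positivity), ENNReal.ofReal_natCast]
    _ = ENNReal.ofReal (6 * c * R) := by
        congr 1; push_cast; ring

/-- The set of angles having a short integer vector almost orthogonal to them is small. -/
lemma volume_bad_le (R : ℕ) (δ : ℝ) (hδ : 0 ≤ δ) :
    volume {θ : ℝ | θ ∈ Set.Icc 0 π ∧ ∃ k l : ℤ, (k ≠ 0 ∨ l ≠ 0) ∧ |k| ≤ R ∧ |l| ≤ R ∧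
      |cos θ * k + sin θ * l| ≤ δ} ≤ ENNReal.ofReal (36 * π * δ * R) := by
  classical
  have hpi := Real.pi_pos
  have h1 := volume_union_le (fun k l : ℤ => arc k l δ) (3 * π * δ) (by positivity)
    (by
      intro k l hk
      apply volume_arc_le _ _ _ _ (abs_pos.mpr (by exact_mod_cast hk)) _ hδ
      rw [sq_abs]; nlinarith [sq_nonneg (l : ℝ)]) R
  have h2 := volume_union_le (fun l k : ℤ => arc k l δ) (3 * π * δ) (by positivity)
    (by
      intro l k hl
      apply volume_arc_le _ _ _ _ (abs_pos.mpr (by exact_mod_cast hl)) _ hδ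
      rw [sq_abs]; nlinarith [sq_nonneg (k : ℝ)]) R
  have hsub : {θ : ℝ | θ ∈ Set.Icc 0 π ∧ ∃ k l : ℤ, (k ≠ 0 ∨ l ≠ 0) ∧ |k| ≤ R ∧ |l| ≤ R ∧
      |cos θ * k + sin θ * l| ≤ δ} ⊆
      (⋃ k ∈ (Finset.Icc (-(R : ℤ)) R).erase 0, ⋃ l ∈ Finset.Icc (-|k|) |k|, arc k l δ) ∪
      (⋃ l ∈ (Finset.Icc (-(R : ℤ)) R).erase 0, ⋃ k ∈ Finset.Icc (-|l|) |l|, arc k l δ) := by
    rintro θ ⟨hθ, k, l, hkl, hk, hl, hb⟩
    rcases le_total |l| |k| with h | h
    · left
      have hk0 : k ≠ 0 := by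
        intro h0
        rw [h0, abs_zero] at h
        have : l = 0 := abs_nonpos_iff.mp h
        rcases hkl with h' | h'
        · exact h' h0
        · exact h' this
      simp only [Set.mem_iUnion]
      refine ⟨k, ?_, l, ?_, hθ, hb⟩
      · rw [Finset.mem_erase, Finset.mem_Icc]
        exact ⟨hk0, abs_le.mp hk⟩
      · rw [Finset.mem_Icc]; exact abs_le.mp h
    · right
      have hl0 : l ≠ 0 := by
        intro h0
        rw [h0, abs_zero] at h
        have : k = 0 := abs_nonpos_iff.mp h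
        rcases hkl with h' | h'
        · exact h' this
        · exact h' h0
      simp only [Set.mem_iUnion]
      refine ⟨l, ?_, k, ?_, hθ, hb⟩
      · rw [Finset.mem_erase, Finset.mem_Icc]
        exact ⟨hl0, abs_le.mp hl⟩
      · rw [Finset.mem_Icc]; exact abs_le.mp h
  calc _ ≤ _ := measure_mono hsub
    _ ≤ _ := measure_union_le _ _
    _ ≤ ENNReal.ofReal (6 * (3 * π * δ) * R) + ENNReal.ofReal (6 * (3 * π * δ) * R) :=
        add_le_add h1 h2
    _ = ENNReal.ofReal (36 * π * δ * R) := by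
        rw [← ENNReal.ofReal_add (by positivity) (by positivity)]
        congr 1; ring

end Pool.Agent.Strips47
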