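import Pool.Agent.Strips47.Count

set_option autoImplicit false

namespace Pool.Agent.Strips47

open Finset MeasureTheory Real

/-- `u` with a nonzero short vector having first two coordinates zero. -/
def BadInj (d n q : ℕ) (u : Fin (d + 2) → ZMod q) : Prop :=
  ∃ Z : Fin (d + 2) → ℤ, Z ≠ 0 ∧ Z 0 = 0 ∧ Z 1 = 0 ∧ (∀ k, |Z k| < n) ∧
    ∑ l, u l * (Z l : ZMod q) = 0

open Classical in
lemma card_badInj (d n q : ℕ) [hq : Fact q.Prime] (hn : 1 ≤ n) (hnq : n < q) :
    (Finset.univ.filter (fun u : Fin (d + 2) → ZMod q => BadInj d n q u)).card * q ≤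
      (2 * n) ^ d * q ^ (d + 2) := by
  let box : Finset (Fin (d + 2) → ℤ) :=
    Fintype.piFinset (fun k => if k = 0 ∨ k = 1 then ({0} : Finset ℤ) else
      Finset.Ioo (-(n : ℤ)) n)
  let orth : (Fin (d + 2) → ℤ) → Finset (Fin (d + 2) → ZMod q) := fun Z =>
    Finset.univ.filter (fun u => ∑ l, u l * (Z l : ZMod q) = 0)
  have hsub : Finset.univ.filter (fun u : Fin (d + 2) → ZMod q => BadInj d n q u) ⊆
      (box.filter (fun Z => Z ≠ 0)).biUnion orth := by
    intro u hu
    obtain ⟨Z, hZ0, h0, h1, hZ, hu0⟩ := (Finset.mem_filter.mp hu).2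
    rw [Finset.mem_biUnion]
    refine ⟨Z, ?_, ?_⟩
    · rw [Finset.mem_filter]
      refine ⟨?_, hZ0⟩
      rw [Fintype.mem_piFinset]
      intro k
      by_cases hk : k = 0 ∨ k = 1
      · simp only [hk, if_true, Finset.mem_singleton]
        rcases hk with h | h
        · rw [h]; exact h0
        · rw [h]; exact h1
      · simp only [hk, if_false]
        rw [Finset.mem_Ioo]
        exact abs_lt.mp (hZ k)
    · exact Finset.mem_filter.mpr ⟨Finset.mem_univ _, hu0⟩
  have hboxcard : box.card ≤ (2 * n) ^ d := by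
    have h1 : box.card = ∏ k : Fin (d + 2), (if k = 0 ∨ k = 1 then ({0} : Finset ℤ) else
      Finset.Ioo (-(n : ℤ)) n).card := Fintype.card_piFinset _
    rw [h1, Fin.prod_univ_succ, Fin.prod_univ_succ]
    have h2 : ∀ k : Fin d, ¬ (k.succ.succ = (0 : Fin (d + 2)) ∨ k.succ.succ = (1 : Fin (d + 2))) := by
      intro k h
      rcases h with h | h
      · exact (Fin.succ_ne_zero _) h
      · have : (1 : Fin (d + 2)) = Fin.succ 0 := rfl
        rw [this] at h
        exact (Fin.succ_ne_zero _) (Fin.succ_injective _ h)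
    have h3 : (Fin.succ (0 : Fin (d + 1))) = (1 : Fin (d + 2)) := rfl
    simp only [h2, if_false, h3, true_or, or_true, if_true, Finset.card_singleton, one_mul]
    rw [Finset.prod_const]
    simp only [Finset.card_univ, Fintype.card_fin]
    apply Nat.pow_le_pow_left
    rw [Int.card_Ioo]; omega
  have horth : ∀ Z ∈ box.filter (fun Z => Z ≠ 0), (orth Z).card * q ≤ q ^ (d + 2) := by
    intro Z hZ
    obtain ⟨hZb, hZ0⟩ := Finset.mem_filter.mp hZ
    rw [Fintype.mem_piFinset] at hZb
    have hZn : ∀ k, |Z k| ≤ n := by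
      intro k
      have h := hZb k
      by_cases hk : k = 0 ∨ k = 1
      · simp only [hk, if_true, Finset.mem_singleton] at h
        rw [h]; simp
      · simp only [hk, if_false] at h
        rw [Finset.mem_Ioo] at h
        rw [abs_le]; constructor <;> linarith [h.1, h.2]
    have hli : LinearIndependent ℚ (fun _ : Fin 1 => toQ Z) := by
      apply LinearIndependent.of_subsingleton (0 : Fin 1)
      intro h0
      apply hZ0
      funext k
      have h := congrFun h0 k
      simpa [toQ] using h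
    have h := count_orth (q := q) (n := n) (fun _ : Fin 1 => Z) hli (fun _ l => hZn l)
      (by simpa using hnq)
    simpa [orth] using h
  calc (Finset.univ.filter (fun u : Fin (d + 2) → ZMod q => BadInj d n q u)).card * q
      ≤ (∑ Z ∈ box.filter (fun Z => Z ≠ 0), (orth Z).card) * q :=
        Nat.mul_le_mul_right _ ((Finset.card_le_card hsub).trans Finset.card_biUnion_le)
    _ = ∑ Z ∈ box.filter (fun Z => Z ≠ 0), (orth Z).card * q := by rw [Finset.sum_mul]
    _ ≤ ∑ Z ∈ box.filter (fun Z => Z ≠ 0), q ^ (d + 2) := Finset.sum_le_sum horth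
    _ = (box.filter (fun Z => Z ≠ 0)).card * q ^ (d + 2) := by
        rw [Finset.sum_const, smul_eq_mul]
    _ ≤ (2 * n) ^ d * q ^ (d + 2) :=
        Nat.mul_le_mul_right _ ((Finset.card_filter_le _ _).trans hboxcard)

/-- Angles with many lattice points. -/
def manySet (d n q L : ℕ) (u : Fin (d + 2) → ZMod q) : Set ℝ :=
  {θ | 4 ^ L < (lat d n q (cos θ) (sin θ) u 0).card}

open Classical in
lemma card_lat_eq (d n q : ℕ) (u : Fin (d + 2) → ZMod q) (θ : ℝ) :
    (lat d n q (cos θ) (sin θ) u 0).card =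
      ∑ X ∈ (Fintype.piFinset (fun _ : Fin (d + 2) => Finset.Icc (-(n : ℤ)) n)).filter
        (fun X => (∀ k, |X k| * 2 ^ 0 ≤ (n : ℤ)) ∧ ∑ l, u l * (X l : ZMod q) = 0),
        (if |cos θ * X 0 + sin θ * X 1| * 2 ^ 0 ≤ 2 then 1 else 0) := by
  rw [← Finset.card_filter]
  congr 1
  ext X
  simp only [lat, body, Finset.mem_filter]
  tauto

lemma measurable_manySet (d n q L : ℕ) (u : Fin (d + 2) → ZMod q) :
    MeasurableSet (manySet d n q L u) := by
  classical
  have h : Measurable (fun θ : ℝ => (lat d n q (cos θ) (sin θ) u 0).card) := by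
    have h1 : (fun θ : ℝ => (lat d n q (cos θ) (sin θ) u 0).card) = fun θ : ℝ =>
      ∑ X ∈ (Fintype.piFinset (fun _ : Fin (d + 2) => Finset.Icc (-(n : ℤ)) n)).filter
        (fun X => (∀ k, |X k| * 2 ^ 0 ≤ (n : ℤ)) ∧ ∑ l, u l * (X l : ZMod q) = 0),
        (if |cos θ * X 0 + sin θ * X 1| * 2 ^ 0 ≤ 2 then 1 else 0) := by
      funext θ; exact card_lat_eq d n q u θ
    rw [h1]
    apply Finset.measurable_sum
    intro X _
    apply Measurable.ite
    · exact measurableSet_le (by fun_prop) measurable_const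
    · exact measurable_const
    · exact measurable_const
  exact measurableSet_lt measurable_const h

/-- Lebesgue measure on `[0, π]`. -/
noncomputable def mu : Measure ℝ := volume.restrict (Set.Icc 0 π)

lemma mu_univ : mu Set.univ = ENNReal.ofReal π := by
  rw [mu, Measure.restrict_apply_univ, Real.volume_Icc, sub_zero]

lemma sum_mu_le (s d n q h H L : ℕ) (hH : 1 ≤ H)
    (hharm : ∑ i ∈ Finset.range h, 1 / ((i : ℝ) + 1) ≤ H)
    (hd : d + 2 = 2 * h) (hds : 4 * H * (s + 1) ≤ d) [hq : Fact q.Prime]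
    (hqn : n ^ (d + 1) ≤ 2 * q) (hqs : (h).factorial * n ^ (h) < q) (hn : 1 ≤ n) :
    ∑ u : Fin (d + 2) → ZMod q, mu (manySet d n q L u) ≤
      ENNReal.ofReal (π * ((h : ℝ) * (2 * 3 ^ (d + 3) * 2 ^ (d + 1)) ^ (h) *
        q ^ (d + 2) / 4 ^ ((s + 1) * (L + 1)))) := by
  classical
  set C : ℝ := (h : ℝ) * (2 * 3 ^ (d + 3) * 2 ^ (d + 1)) ^ (h) *
        q ^ (d + 2) / 4 ^ ((s + 1) * (L + 1)) with hC
  have hC0 : 0 ≤ C := by positivity
  calc ∑ u : Fin (d + 2) → ZMod q, mu (manySet d n q L u)
      = ∑ u : Fin (d + 2) → ZMod q, ∫⁻ θ, (manySet d n q L u).indicator 1 θ ∂mu := by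
        apply Finset.sum_congr rfl
        intro u _
        rw [lintegral_indicator_one (measurable_manySet d n q L u)]
    _ = ∫⁻ θ, ∑ u : Fin (d + 2) → ZMod q, (manySet d n q L u).indicator 1 θ ∂mu := by
        rw [lintegral_finsetSum]
        intro u _
        exact measurable_one.indicator (measurable_manySet d n q L u)
    _ ≤ ∫⁻ _, ENNReal.ofReal C ∂mu := by
        apply lintegral_mono
        intro θ
        have h1 := main_count s d n q h H L (cos θ) (sin θ)
          (by have := Real.sin_sq_add_cos_sq θ; linarith) hH hharm hd hds hqn hqs hn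
        have h2 : ∑ u : Fin (d + 2) → ZMod q, (manySet d n q L u).indicator (1 : ℝ → ENNReal) θ =
            ((Finset.univ.filter (fun u : Fin (d + 2) → ZMod q =>
              4 ^ L < (lat d n q (cos θ) (sin θ) u 0).card)).card : ENNReal) := by
          rw [Finset.card_filter]
          push_cast
          apply Finset.sum_congr rfl
          intro u _
          simp only [Set.indicator, manySet, Set.mem_ofPred_eq, Pi.one_apply]
        show ∑ u : Fin (d + 2) → ZMod q, (manySet d n q L u).indicator (1 : ℝ → ENNReal) θ ≤ _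
        rw [h2, ← ENNReal.ofReal_natCast]
        exact ENNReal.ofReal_le_ofReal h1
    _ = ENNReal.ofReal (π * C) := by
        rw [lintegral_const, mu_univ, ← ENNReal.ofReal_mul hC0, mul_comm]

end Pool.Agent.Strips47
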