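import Pool.Agent.Strips47.Doubling

set_option autoImplicit false

namespace Pool.Agent.Strips47

open Finset

/-- Linearly independent rational rows have a nonzero maximal minor. -/
lemma exists_minor {D i : ℕ} (Y : Fin i → (Fin D → ℚ)) (hY : LinearIndependent ℚ Y) :
    ∃ c : Fin i → Fin D, (Matrix.of (fun k l : Fin i => Y k (c l))).det ≠ 0 := by
  classical
  let A : Matrix (Fin i) (Fin D) ℚ := Matrix.of Y
  have hrank : A.rank = i := by
    have h := LinearIndependent.rank_matrix (M := A) hY
    simpa using h
  -- columns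
  obtain ⟨b, hbS, hspan, hli⟩ := exists_linearIndependent ℚ (Set.range A.col)
  have hfin : b.Finite := Set.Finite.subset (Set.finite_range _) hbS
  have : Fintype b := hfin.fintype
  have hcard0 : Fintype.card b = A.rank := by
    rw [Matrix.rank_eq_finrank_span_cols, ← hspan, ← finrank_span_eq_card hli,
      Subtype.range_coe]
  have hcard : Fintype.card b = i := hcard0.trans hrank
  let e : Fin i ≃ b := (Fintype.equivFinOfCardEq hcard).symm
  have hch : ∀ l : Fin i, ∃ d : Fin D, A.col d = (e l : Fin i → ℚ) := fun l => hbS (e l).2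
  choose c hc using hch
  refine ⟨c, ?_⟩
  have h1 : LinearIndependent ℚ (fun l : Fin i => A.col (c l)) := by
    have h2 : (fun l => A.col (c l)) = (fun x : b => (x : Fin i → ℚ)) ∘ e := by
      funext l; exact hc l
    rw [h2]
    exact hli.comp e e.injective
  have h3 : LinearIndependent ℚ (Matrix.of (fun k l : Fin i => Y k (c l))).col := by
    exact h1
  have h4 := (Matrix.linearIndependent_cols_iff_isUnit).mp h3
  rw [Matrix.isUnit_iff_isUnit_det] at h4
  exact h4.ne_zero

/-- The number of `u` orthogonal mod `q` to `i` independent short integer vectors. -/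
lemma count_orth {D i q n : ℕ} [hq : Fact q.Prime] (Y : Fin i → (Fin D → ℤ))
    (hY : LinearIndependent ℚ (fun k => toQ (Y k)))
    (hb : ∀ k l, |Y k l| ≤ n) (hsmall : i.factorial * n ^ i < q) :
    (Finset.univ.filter (fun u : Fin D → ZMod q => ∀ k, ∑ l, u l * (Y k l : ZMod q) = 0)).card *
      q ^ i ≤ q ^ D := by
  classical
  obtain ⟨c, hc⟩ := exists_minor (fun k => toQ (Y k)) hY
  set N : Matrix (Fin i) (Fin i) ℤ := Matrix.of (fun k l => Y k (c l)) with hN
  have hdetQ : ((N.det : ℤ) : ℚ) = (Matrix.of (fun k l : Fin i => toQ (Y k) (c l))).det := by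
    have h := (Int.castRingHom ℚ).map_det N
    simp only [eq_intCast] at h
    rw [h]
    rfl
  have hdet0 : N.det ≠ 0 := by
    intro h0
    apply hc
    rw [← hdetQ, h0]; simp
  have hdetle : |N.det| ≤ (i.factorial * n ^ i : ℕ) := by
    have h := Matrix.det_le (A := N) (abv := AbsoluteValue.abs) (x := (n : ℤ))
      (by intro k l; exact hb k (c l))
    simpa using h
  have hdetq : ((N.det : ℤ) : ZMod q) ≠ 0 := by
    intro h0
    rw [ZMod.intCast_zmod_eq_zero_iff_dvd] at h0
    have h1 := Int.le_of_dvd (abs_pos.mpr hdet0) ((dvd_abs _ _).mpr h0)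
    have h2 : ((i.factorial * n ^ i : ℕ) : ℤ) < (q : ℤ) := by exact_mod_cast hsmall
    omega
  -- the linear map
  let φ : (Fin D → ZMod q) →ₗ[ZMod q] (Fin i → ZMod q) :=
    { toFun := fun u k => ∑ l, u l * (Y k l : ZMod q)
      map_add' := by
        intro u v; funext k; simp [add_mul, Finset.sum_add_distrib]
      map_smul' := by
        intro a u; funext k
        simp [Finset.mul_sum, mul_assoc] }
  have hsurj : Function.Surjective φ := by
    intro y
    set Nq : Matrix (Fin i) (Fin i) (ZMod q) := N.map (fun z : ℤ => (z : ZMod q)) with hNq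
    have hdNq : Nq.det = ((N.det : ℤ) : ZMod q) := by
      have h := (Int.castRingHom (ZMod q)).map_det N
      simp only [eq_intCast] at h
      rw [h]
      rfl
    have hunit : IsUnit Nq.det := by rw [hdNq]; exact hdetq.isUnit
    let z : Fin i → ZMod q := Nq⁻¹.mulVec y
    have hz : Nq.mulVec z = y := by
      simp only [z, Matrix.mulVec_mulVec, Matrix.mul_nonsing_inv Nq hunit, Matrix.one_mulVec]
    refine ⟨fun d => ∑ l, if c l = d then z l else 0, ?_⟩
    funext k
    have h1 : φ (fun d => ∑ l, if c l = d then z l else 0) k =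
        ∑ d, (∑ l, if c l = d then z l else 0) * (Y k d : ZMod q) := rfl
    rw [h1, ← congrFun hz k]
    simp only [Matrix.mulVec, dotProduct]
    simp_rw [Finset.sum_mul]
    rw [Finset.sum_comm]
    apply Finset.sum_congr rfl
    intro l _
    rw [Finset.sum_eq_single (c l)]
    · simp [hNq, hN, mul_comm]
    · intro d _ hd
      simp [Ne.symm hd]
    · intro h; exact absurd (Finset.mem_univ _) h
  -- counting the kernel
  have hker : (Finset.univ.filter
      (fun u : Fin D → ZMod q => ∀ k, ∑ l, u l * (Y k l : ZMod q) = 0)).card =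
      Nat.card (LinearMap.ker φ) := by
    rw [Nat.card_eq_fintype_card, Fintype.card_subtype]
    congr 1
    ext u
    simp only [Finset.mem_filter, Finset.mem_univ, true_and]
    constructor
    · intro h
      rw [LinearMap.mem_ker]
      funext k; exact h k
    · intro h k
      rw [LinearMap.mem_ker] at h
      exact congrFun h k
  rw [hker]
  have h1 := φ.finrank_range_add_finrank_ker
  rw [LinearMap.range_eq_top.mpr hsurj, finrank_top, Module.finrank_fin_fun,
    Module.finrank_fin_fun] at h1
  have h2 : Nat.card (LinearMap.ker φ) = q ^ Module.finrank (ZMod q) (LinearMap.ker φ) := by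
    have h3 := Module.natCard_eq_pow_finrank (K := ZMod q) (V := LinearMap.ker φ)
    rw [h3, Nat.card_zmod]
  rw [h2, ← pow_add]
  have h4 : Module.finrank (ZMod q) (LinearMap.ker φ) + i = D := by omega
  rw [h4]

end Pool.Agent.Strips47
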