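import Pool.Agent.Strips47.Chain
import Pool.Agent.Strips47.ModQ

set_option autoImplicit false

namespace Pool.Agent.Strips47

open Finset

open Classical in
/-- Integer points of the body at scale `j`. -/
noncomputable def body (d n j : ℕ) (a b : ℝ) : Finset (Fin (d + 2) → ℤ) :=
  (Fintype.piFinset (fun _ => Finset.Icc (-(n : ℤ)) n)).filter
    (fun X => (∀ k, |X k| * 2 ^ j ≤ n) ∧ |a * X 0 + b * X 1| * 2 ^ j ≤ 2)

lemma mem_body {d n j : ℕ} {a b : ℝ} {X : Fin (d + 2) → ℤ} :
    X ∈ body d n j a b ↔ (∀ k, |X k| * 2 ^ j ≤ n) ∧ |a * X 0 + b * X 1| * 2 ^ j ≤ 2 := by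
  unfold body
  rw [Finset.mem_filter]
  constructor
  · intro h; exact h.2
  · intro h
    refine ⟨?_, h⟩
    rw [Fintype.mem_piFinset]
    intro k
    rw [Finset.mem_Icc, ← abs_le]
    have h1 := h.1 k
    have h2 : |X k| * 1 ≤ |X k| * 2 ^ j :=
      mul_le_mul_of_nonneg_left (one_le_pow₀ (by norm_num)) (abs_nonneg _)
    linarith

lemma body_trivial {d n j : ℕ} {a b : ℝ} (h : n < 2 ^ j) {X : Fin (d + 2) → ℤ}
    (hX : X ∈ body d n j a b) : X = 0 := by
  funext k
  have h1 := (mem_body.mp hX).1 k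
  by_contra hne
  have h2 : 1 ≤ |X k| := Int.one_le_abs hne
  have h3 : (1 : ℤ) * 2 ^ j ≤ |X k| * 2 ^ j := mul_le_mul_of_nonneg_right h2 (by positivity)
  have h4 : (n : ℤ) < 2 ^ j := by exact_mod_cast h
  linarith

/-- A set of integers with pairwise differences at most `8` has at most `9` elements. -/
lemma card_le_nine (T : Finset ℤ) (h : ∀ x ∈ T, ∀ y ∈ T, |x - y| ≤ 8) : T.card ≤ 9 := by
  rcases T.eq_empty_or_nonempty with rfl | hne
  · simp
  · have hsub : T ⊆ Finset.Icc (T.min' hne) (T.min' hne + 8) := by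
      intro x hx
      rw [Finset.mem_Icc]
      refine ⟨T.min'_le x hx, ?_⟩
      have h1 := (abs_le.mp (h x hx _ (T.min'_mem hne))).2
      linarith
    calc T.card ≤ _ := Finset.card_le_card hsub
      _ = 9 := by rw [Int.card_Icc]; omega

/-- Number of integer points of the body. -/
lemma card_body_le (d n j : ℕ) (a b : ℝ) (hab : a ^ 2 + b ^ 2 = 1) (hn : 2 ^ j ≤ n) :
    (body d n j a b).card * (2 ^ j) ^ (d + 1) ≤ 3 ^ (d + 3) * n ^ (d + 1) := by
  classical
  -- the special index
  obtain ⟨e, he⟩ : ∃ e : Fin (d + 2), ∀ X Y : Fin (d + 2) → ℤ, (∀ k, k ≠ e → X k = Y k) →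
      |((X e - Y e : ℤ) : ℝ)| ≤
        2 * |(a * X 0 + b * X 1) - (a * Y 0 + b * Y 1)| := by
    have h01 : (0 : Fin (d + 2)) ≠ 1 := by simp
    rcases le_total (1 / 2) |b| with hb | hb
    · refine ⟨1, ?_⟩
      intro X Y h
      have h0 := h 0 h01
      have : (a * X 0 + b * X 1) - (a * Y 0 + b * Y 1) = b * ((X 1 - Y 1 : ℤ) : ℝ) := by
        rw [h0]; push_cast; ring
      rw [this, abs_mul]
      nlinarith [abs_nonneg ((X 1 - Y 1 : ℤ) : ℝ)]
    · have ha : 1 / 2 ≤ |a| := by
        by_contra hcon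
        push Not at hcon
        have h1 : a ^ 2 < 1 / 4 := by
          rw [← sq_abs]; nlinarith [abs_nonneg a]
        have h2 : b ^ 2 ≤ 1 / 4 := by
          rw [← sq_abs]; nlinarith [abs_nonneg b]
        linarith
      refine ⟨0, ?_⟩
      intro X Y h
      have h1 := h 1 (Ne.symm h01)
      have : (a * X 0 + b * X 1) - (a * Y 0 + b * Y 1) = a * ((X 0 - Y 0 : ℤ) : ℝ) := by
        rw [h1]; push_cast; ring
      rw [this, abs_mul]
      nlinarith [abs_nonneg ((X 0 - Y 0 : ℤ) : ℝ)]
  set M : ℕ := n / 2 ^ j with hM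
  have h2pos : 0 < 2 ^ j := by positivity
  have hM1 : 1 ≤ M := by
    rw [hM]; exact (Nat.one_le_div_iff h2pos).mpr hn
  have hMle : M * 2 ^ j ≤ n := Nat.div_mul_le_self n (2 ^ j)
  let f : (Fin (d + 2) → ℤ) → (Fin (d + 2) → ℤ) := fun X => Function.update X e 0
  have hcoord : ∀ X ∈ body d n j a b, ∀ k, |X k| ≤ M := by
    intro X hX k
    have h1 := (mem_body.mp hX).1 k
    have h2 : X k = X k := rfl
    have h3 : (X k).natAbs * 2 ^ j ≤ n := by
      rw [Int.abs_eq_natAbs] at h1
      exact_mod_cast h1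
    have h4 : (X k).natAbs ≤ M := by
      rw [hM, Nat.le_div_iff_mul_le h2pos]; exact h3
    rw [Int.abs_eq_natAbs]
    exact_mod_cast h4
  have himg : ((body d n j a b).image f).card ≤ (2 * M + 1) ^ (d + 1) := by
    have hsub : (body d n j a b).image f ⊆
        Fintype.piFinset (fun k => if k = e then ({0} : Finset ℤ) else Finset.Icc (-(M : ℤ)) M) := by
      intro Z hZ
      obtain ⟨X, hX, rfl⟩ := Finset.mem_image.mp hZ
      rw [Fintype.mem_piFinset]
      intro k
      by_cases hk : k = e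
      · subst hk; simp [f]
      · simp only [hk, if_false]
        rw [Finset.mem_Icc, ← abs_le]
        simp only [f, Function.update_of_ne hk]
        exact hcoord X hX k
    calc _ ≤ _ := Finset.card_le_card hsub
      _ = ∏ k : Fin (d + 2), (if k = e then ({0} : Finset ℤ) else Finset.Icc (-(M : ℤ)) M).card :=
          Fintype.card_piFinset _
      _ = (2 * M + 1) ^ (d + 1) := by
          rw [← Finset.mul_prod_erase Finset.univ _ (Finset.mem_univ e)]
          simp only [if_true, Finset.card_singleton, one_mul]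
          rw [Finset.prod_congr rfl (g := fun _ => 2 * M + 1)]
          · rw [Finset.prod_const, Finset.card_erase_of_mem (Finset.mem_univ e)]
            simp
          · intro k hk
            have hke : k ≠ e := (Finset.mem_erase.mp hk).1
            simp only [hke, if_false]
            rw [Int.card_Icc]; omega
  have hfib : ∀ c ∈ (body d n j a b).image f,
      ((body d n j a b).filter (fun X => f X = c)).card ≤ 9 := by
    intro c _
    have hinj : Set.InjOn (fun X : Fin (d + 2) → ℤ => X e)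
        ((body d n j a b).filter (fun X => f X = c) : Set (Fin (d + 2) → ℤ)) := by
      intro X hX Y hY hXY
      rw [Finset.mem_coe, Finset.mem_filter] at hX hY
      have h1 : f X = c := hX.2
      have h2 : f Y = c := hY.2
      funext k
      by_cases hk : k = e
      · subst hk; exact hXY
      · have h3 := congrFun (h1.trans h2.symm) k
        simpa [f, Function.update_of_ne hk] using h3
    rw [← Finset.card_image_of_injOn hinj]
    apply card_le_nine
    intro x hx y hy
    obtain ⟨X, hX, rfl⟩ := Finset.mem_image.mp hx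
    obtain ⟨Y, hY, rfl⟩ := Finset.mem_image.mp hy
    obtain ⟨hXb, h1⟩ := Finset.mem_filter.mp hX
    obtain ⟨hYb, h2⟩ := Finset.mem_filter.mp hY
    have h3 : ∀ k, k ≠ e → X k = Y k := by
      intro k hk
      have h3 := congrFun (h1.trans h2.symm) k
      simpa [f, Function.update_of_ne hk] using h3
    have h4 := he X Y h3
    have hXs := (mem_body.mp hXb).2
    have hYs := (mem_body.mp hYb).2
    have h1j : (1 : ℝ) ≤ 2 ^ j := one_le_pow₀ (by norm_num)
    have hXs' : |a * X 0 + b * X 1| ≤ 2 := by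
      nlinarith [abs_nonneg (a * (X 0 : ℝ) + b * X 1)]
    have hYs' : |a * Y 0 + b * Y 1| ≤ 2 := by
      nlinarith [abs_nonneg (a * (Y 0 : ℝ) + b * Y 1)]
    have h5 : |(a * X 0 + b * X 1) - (a * Y 0 + b * Y 1)| ≤ 4 := by
      refine (abs_sub _ _).trans ?_
      linarith
    have h6 : |((X e - Y e : ℤ) : ℝ)| ≤ 8 := by linarith
    have h7 : ((|X e - Y e| : ℤ) : ℝ) ≤ ((8 : ℤ) : ℝ) := by
      rw [Int.cast_abs]; exact_mod_cast h6
    exact_mod_cast h7
  have hc := Finset.card_le_mul_card_image (f := f) (body d n j a b) 9 hfib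
  calc (body d n j a b).card * (2 ^ j) ^ (d + 1)
      ≤ (9 * (2 * M + 1) ^ (d + 1)) * (2 ^ j) ^ (d + 1) :=
        Nat.mul_le_mul_right _ (hc.trans (Nat.mul_le_mul_left _ himg))
    _ ≤ (9 * (3 * M) ^ (d + 1)) * (2 ^ j) ^ (d + 1) := by
        apply Nat.mul_le_mul_right
        apply Nat.mul_le_mul_left
        exact Nat.pow_le_pow_left (by omega) _
    _ = 3 ^ (d + 3) * (M * 2 ^ j) ^ (d + 1) := by
        rw [mul_pow, mul_pow]; ring
    _ ≤ 3 ^ (d + 3) * n ^ (d + 1) := by
        apply Nat.mul_le_mul_left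
        exact Nat.pow_le_pow_left hMle _

end Pool.Agent.Strips47
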