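import Pool.Agent.Strips47.Doubling

set_option autoImplicit false

namespace Pool.Agent.Strips47

open Finset

/-- Iterated doubling. -/
lemma chain_card {D : ℕ} (S : ℕ → Finset (Fin D → ℤ))
    (h : ∀ j, (S j).card ≤ 4 ^ rk (S j) * (S (j + 1)).card) (J : ℕ) :
    (S 0).card ≤ 4 ^ (∑ j ∈ Finset.range J, rk (S j)) * (S J).card := by
  induction J with
  | zero => simp
  | succ J ih =>
    calc (S 0).card ≤ 4 ^ (∑ j ∈ Finset.range J, rk (S j)) * (S J).card := ih
      _ ≤ 4 ^ (∑ j ∈ Finset.range J, rk (S j)) * (4 ^ rk (S J) * (S (J + 1)).card) :=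
          Nat.mul_le_mul_left _ (h J)
      _ = 4 ^ (∑ j ∈ Finset.range (J + 1), rk (S j)) * (S (J + 1)).card := by
          rw [Finset.sum_range_succ, pow_add, mul_assoc]

/-- Layer-cake for `min (r j) h`. -/
lemma sum_min_eq (r : ℕ → ℕ) (h J : ℕ) :
    ∑ j ∈ Finset.range J, min (r j) h =
      ∑ i ∈ Finset.range h, ((Finset.range J).filter (fun j => i + 1 ≤ r j)).card := by
  classical
  have h1 : ∀ j, min (r j) h = ∑ i ∈ Finset.range h, if i + 1 ≤ r j then 1 else 0 := by
    intro j
    rw [← Finset.card_filter]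
    have : (Finset.range h).filter (fun i => i + 1 ≤ r j) = Finset.range (min (r j) h) := by
      ext i; simp only [Finset.mem_filter, Finset.mem_range]; omega
    rw [this, Finset.card_range]
  simp_rw [h1]
  rw [Finset.sum_comm]
  apply Finset.sum_congr rfl
  intro i _
  rw [Finset.card_filter]

/-- Choice of one scale. -/
lemma choose_scale (r : ℕ → ℕ) (hr : ∀ j, r (j + 1) ≤ r j) (h H J L : ℕ) (hH : 1 ≤ H)
    (hharm : ∑ i ∈ Finset.range h, 1 / ((i : ℝ) + 1) ≤ H)
    (hle : ∀ j, r j ≤ 2 * h)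
    (hsum : L + 1 ≤ ∑ j ∈ Finset.range J, r j) :
    ∃ i j : ℕ, 1 ≤ i ∧ i ≤ h ∧ j < J ∧ i ≤ r j ∧ L + 1 ≤ 2 * H * (i * (j + 1)) := by
  classical
  by_contra hcon
  push Not at hcon
  have hanti : Antitone r := antitone_nat_of_succ_le hr
  -- count bound
  have hcount : ∀ i ∈ Finset.range h,
      (((Finset.range J).filter (fun j => i + 1 ≤ r j)).card : ℝ) * (2 * H * ((i : ℝ) + 1)) ≤
        L := by
    intro i hi
    rw [Finset.mem_range] at hi
    set F := (Finset.range J).filter (fun j => i + 1 ≤ r j) with hF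
    rcases Nat.eq_zero_or_pos F.card with h0 | hpos
    · rw [h0]; simp
    · have hne : F.Nonempty := Finset.card_pos.mp hpos
      set j := F.max' hne with hj
      have hjF : j ∈ F := F.max'_mem hne
      have hcard : F.card ≤ j + 1 := by
        have : F ⊆ Finset.range (j + 1) := by
          intro x hx
          rw [Finset.mem_range]
          have := F.le_max' x hx
          omega
        calc F.card ≤ (Finset.range (j + 1)).card := Finset.card_le_card this
          _ = j + 1 := Finset.card_range _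
      obtain ⟨hjJ, hjr⟩ := Finset.mem_filter.mp hjF
      rw [Finset.mem_range] at hjJ
      have hc := hcon (i + 1) j (by omega) (by omega) hjJ hjr
      have h5 : F.card * (2 * H * (i + 1)) ≤ L := by
        calc F.card * (2 * H * (i + 1)) ≤ (j + 1) * (2 * H * (i + 1)) :=
              Nat.mul_le_mul_right _ hcard
          _ = 2 * H * ((i + 1) * (j + 1)) := by ring
          _ ≤ L := by omega
      exact_mod_cast h5
  have hkR : (0 : ℝ) < H := by exact_mod_cast hH
  have hcount2 : ∀ i ∈ Finset.range h,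
      (((Finset.range J).filter (fun j => i + 1 ≤ r j)).card : ℝ) ≤
        (L : ℝ) / (2 * H) * (1 / ((i : ℝ) + 1)) := by
    intro i hi
    have h1 := hcount i hi
    have h2 : (0 : ℝ) < (i : ℝ) + 1 := by positivity
    rw [div_mul_div_comm, le_div_iff₀ (by positivity)]
    linarith
  have h1 : ((∑ j ∈ Finset.range J, min (r j) h : ℕ) : ℝ) ≤ (L : ℝ) / 2 := by
    rw [sum_min_eq]
    push_cast
    calc ∑ i ∈ Finset.range h, (((Finset.range J).filter (fun j => i + 1 ≤ r j)).card : ℝ)
        ≤ ∑ i ∈ Finset.range h, (L : ℝ) / (2 * H) * (1 / ((i : ℝ) + 1)) :=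
          Finset.sum_le_sum hcount2
      _ = (L : ℝ) / (2 * H) * ∑ i ∈ Finset.range h, 1 / ((i : ℝ) + 1) := by
          rw [Finset.mul_sum]
      _ ≤ (L : ℝ) / (2 * H) * H :=
          mul_le_mul_of_nonneg_left hharm (by positivity)
      _ = (L : ℝ) / 2 := by
          field_simp
  have h2 : ∑ j ∈ Finset.range J, r j ≤ 2 * ∑ j ∈ Finset.range J, min (r j) h := by
    rw [Finset.mul_sum]
    apply Finset.sum_le_sum
    intro j _
    have := hle j
    omega
  have h3 : ((L + 1 : ℕ) : ℝ) ≤ 2 * ((∑ j ∈ Finset.range J, min (r j) h : ℕ) : ℝ) := by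
    exact_mod_cast le_trans hsum h2
  push_cast at h3 h1
  linarith

end Pool.Agent.Strips47
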