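import Mathlib

set_option autoImplicit false

namespace Pool.Agent.Strips47

open Finset

/-- Two integers of a finite set in an interval of length `L` are close. -/
lemma close_pair (s : Finset ℤ) (L x0 : ℤ) (h0 : ∀ x ∈ s, x0 ≤ x ∧ x ≤ x0 + L)
    (hM : 2 ≤ s.card) :
    ∃ x ∈ s, ∃ y ∈ s, x < y ∧ (y - x) * ((s.card : ℤ) - 1) ≤ L := by
  classical
  set M : ℤ := (s.card : ℤ) with hMdef
  have hM2 : (2 : ℤ) ≤ M := by rw [hMdef]; exact_mod_cast hM
  obtain ⟨z, hz⟩ : s.Nonempty := Finset.card_pos.mp (by omega)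
  have hL : 0 ≤ L := by have := h0 z hz; omega
  set g : ℤ := L / (M - 1) with hg
  have hg0 : 0 ≤ g := Int.ediv_nonneg hL (by omega)
  have hgle : g * (M - 1) ≤ L := Int.ediv_mul_le L (by omega)
  have hglt : L < (g + 1) * (M - 1) := by
    have := Int.lt_ediv_add_one_mul_self L (show (0 : ℤ) < M - 1 by omega)
    simpa [hg] using this
  -- boxes
  let f : ℤ → ℤ := fun x => (x - x0) / (g + 1)
  have hmaps : ∀ x ∈ s, f x ∈ Finset.Ico (0 : ℤ) (M - 1) := by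
    intro x hx
    have hx' := h0 x hx
    rw [Finset.mem_Ico]
    refine ⟨Int.ediv_nonneg (by omega) (by omega), ?_⟩
    apply Int.ediv_lt_of_lt_mul (by omega)
    have : (M - 1) * (g + 1) = (g + 1) * (M - 1) := by ring
    rw [this]
    omega
  have hcard : (Finset.Ico (0 : ℤ) (M - 1)).card < s.card := by
    rw [Int.card_Ico]
    have : ((M - 1 - 0).toNat : ℤ) < (s.card : ℤ) := by
      rw [Int.toNat_of_nonneg (by omega)]; omega
    exact_mod_cast this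
  obtain ⟨x, hx, y, hy, hne, hfe⟩ := Finset.exists_ne_map_eq_of_card_lt_of_maps_to hcard hmaps
  have key : ∀ u v : ℤ, f u = f v → u < v → (v - u) * (M - 1) ≤ L := by
    intro u v he huv
    have h1 := Int.emod_add_mul_ediv (u - x0) (g + 1)
    have h2 := Int.emod_add_mul_ediv (v - x0) (g + 1)
    have h3 := Int.emod_nonneg (u - x0) (show (g + 1) ≠ 0 by omega)
    have h4 := Int.emod_lt_of_pos (v - x0) (show 0 < (g + 1) by omega)
    have he' : (u - x0) / (g + 1) = (v - x0) / (g + 1) := he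
    rw [he'] at h1
    have h5 : v - u ≤ g := by omega
    calc (v - u) * (M - 1) ≤ g * (M - 1) := by
          apply mul_le_mul_of_nonneg_right h5; omega
      _ ≤ L := hgle
  rcases lt_or_gt_of_ne hne with h | h
  · exact ⟨x, hx, y, hy, h, key x y hfe h⟩
  · exact ⟨y, hy, x, hx, h, key y x hfe.symm h⟩

/-- Collinear integer points in a thin strip have a short difference almost along the strip. -/
lemma collinear_step (T : Finset (ℤ × ℤ)) (m : ℤ) (a b w : ℝ) (dx dy : ℤ)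
    (hdx : dx ≠ 0) (hdy : |dy| ≤ |dx|)
    (hcol : ∀ P ∈ T, ∀ Q ∈ T, dx * (P.2 - Q.2) = dy * (P.1 - Q.1))
    (hbox : ∀ P ∈ T, ∀ Q ∈ T, P.1 - Q.1 ≤ m)
    (hw : ∀ P ∈ T, ∀ Q ∈ T, |a * ((P.1 : ℝ) - Q.1) + b * ((P.2 : ℝ) - Q.2)| ≤ w)
    (hM : 2 ≤ T.card) :
    ∃ k l : ℤ, (k ≠ 0 ∨ l ≠ 0) ∧ |k| * ((T.card : ℤ) - 1) ≤ m ∧ |l| * ((T.card : ℤ) - 1) ≤ m ∧
      |a * k + b * l| * ((T.card : ℝ) - 1) ≤ w := by
  classical
  have hinj : Set.InjOn Prod.fst (T : Set (ℤ × ℤ)) := by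
    intro P hP Q hQ h
    have h' : P.1 = Q.1 := h
    have := hcol P (by simpa using hP) Q (by simpa using hQ)
    rw [h', sub_self, mul_zero] at this
    rcases mul_eq_zero.mp this with h0 | h0
    · exact absurd h0 hdx
    · exact Prod.ext h' (by omega)
  set s := T.image Prod.fst with hs
  have hcard : s.card = T.card := Finset.card_image_of_injOn hinj
  have hne : s.Nonempty := Finset.card_pos.mp (by omega)
  obtain ⟨P0, hP0, hP0e⟩ := Finset.mem_image.mp (s.min'_mem hne)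
  obtain ⟨P1, hP1, hP1e⟩ := Finset.mem_image.mp (s.max'_mem hne)
  have hcp := close_pair s (P1.1 - P0.1) P0.1 (by
    intro x hx
    have h1 := s.min'_le x hx
    have h2 := s.le_max' x hx
    rw [← hP0e] at h1
    rw [← hP1e] at h2
    constructor
    · exact h1
    · have : x ≤ P1.1 := h2
      omega) (by omega)
  obtain ⟨x, hx, y, hy, hxy, hle⟩ := hcp
  obtain ⟨Px, hPx, hPxe⟩ := Finset.mem_image.mp hx
  obtain ⟨Py, hPy, hPye⟩ := Finset.mem_image.mp hy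
  rw [hcard] at hle
  have hM' : (2 : ℤ) ≤ (T.card : ℤ) := by exact_mod_cast hM
  set M : ℤ := (T.card : ℤ) with hMdef
  have hLm : P1.1 - P0.1 ≤ m := hbox P1 hP1 P0 hP0
  have hk : Py.1 - Px.1 = y - x := by rw [← hPxe, ← hPye]
  have hk0 : 0 < y - x := by omega
  have hLpos : 0 < P1.1 - P0.1 := by
    have : 0 < (y - x) * (M - 1) := mul_pos hk0 (by omega)
    omega
  have hc1 := hcol Py hPy Px hPx
  have hc2 := hcol P1 hP1 P0 hP0
  rw [hk] at hc1
  have hl : |Py.2 - Px.2| ≤ |y - x| := by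
    have h1 : |dx| * |Py.2 - Px.2| = |dy| * |y - x| := by rw [← abs_mul, ← abs_mul, hc1]
    have h2 : |dx| * |Py.2 - Px.2| ≤ |dx| * |y - x| := by
      rw [h1]; exact mul_le_mul_of_nonneg_right hdy (abs_nonneg _)
    exact le_of_mul_le_mul_left h2 (abs_pos.mpr hdx)
  have hcross : (P1.1 - P0.1) * (Py.2 - Px.2) = (y - x) * (P1.2 - P0.2) := by
    have : dx * ((P1.1 - P0.1) * (Py.2 - Px.2)) = dx * ((y - x) * (P1.2 - P0.2)) := by
      calc dx * ((P1.1 - P0.1) * (Py.2 - Px.2)) = (P1.1 - P0.1) * (dx * (Py.2 - Px.2)) := by ring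
        _ = (P1.1 - P0.1) * (dy * (y - x)) := by rw [hc1]
        _ = (y - x) * (dy * (P1.1 - P0.1)) := by ring
        _ = (y - x) * (dx * (P1.2 - P0.2)) := by rw [hc2]
        _ = dx * ((y - x) * (P1.2 - P0.2)) := by ring
    exact mul_left_cancel₀ hdx this
  refine ⟨y - x, Py.2 - Px.2, Or.inl (by omega), ?_, ?_, ?_⟩
  · rw [abs_of_pos hk0]; omega
  · have h1 : |Py.2 - Px.2| * (M - 1) ≤ |y - x| * (M - 1) :=
      mul_le_mul_of_nonneg_right hl (by omega)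
    rw [abs_of_pos hk0] at h1
    omega
  · -- real estimate
    have hwD := hw P1 hP1 P0 hP0
    have hcrossR : ((P1.1 : ℝ) - P0.1) * ((Py.2 - Px.2 : ℤ) : ℝ) =
        ((y - x : ℤ) : ℝ) * ((P1.2 : ℝ) - P0.2) := by
      have := congrArg (fun z : ℤ => (z : ℝ)) hcross
      push_cast at this ⊢
      linarith
    have hLR : (0 : ℝ) < (P1.1 : ℝ) - P0.1 := by
      have : ((0 : ℤ) : ℝ) < ((P1.1 - P0.1 : ℤ) : ℝ) := by exact_mod_cast hLpos
      push_cast at this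
      linarith
    have hkR : (0 : ℝ) < ((y - x : ℤ) : ℝ) := by exact_mod_cast hk0
    have hleR : ((y - x : ℤ) : ℝ) * ((T.card : ℝ) - 1) ≤ (P1.1 : ℝ) - P0.1 := by
      have h1 : (((y - x) * (M - 1) : ℤ) : ℝ) ≤ ((P1.1 - P0.1 : ℤ) : ℝ) := by exact_mod_cast hle
      have h2 : ((M : ℤ) : ℝ) = (T.card : ℝ) := by simp [hMdef]
      rw [Int.cast_mul] at h1
      push_cast at h1 h2 ⊢
      rw [h2] at h1
      linarith
    have hMR : (0 : ℝ) ≤ (T.card : ℝ) - 1 := by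
      have : (2 : ℝ) ≤ (T.card : ℝ) := by exact_mod_cast hM
      linarith
    have hid : (a * ((y - x : ℤ) : ℝ) + b * ((Py.2 - Px.2 : ℤ) : ℝ)) * ((P1.1 : ℝ) - P0.1) =
        ((y - x : ℤ) : ℝ) * (a * ((P1.1 : ℝ) - P0.1) + b * ((P1.2 : ℝ) - P0.2)) := by
      have : b * (((P1.1 : ℝ) - P0.1) * ((Py.2 - Px.2 : ℤ) : ℝ)) =
        b * (((y - x : ℤ) : ℝ) * ((P1.2 : ℝ) - P0.2)) := by rw [hcrossR]
      linear_combination this
    have habs : |a * ((y - x : ℤ) : ℝ) + b * ((Py.2 - Px.2 : ℤ) : ℝ)| * ((P1.1 : ℝ) - P0.1) ≤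
        ((y - x : ℤ) : ℝ) * w := by
      calc |a * ((y - x : ℤ) : ℝ) + b * ((Py.2 - Px.2 : ℤ) : ℝ)| * ((P1.1 : ℝ) - P0.1)
          = |(a * ((y - x : ℤ) : ℝ) + b * ((Py.2 - Px.2 : ℤ) : ℝ)) * ((P1.1 : ℝ) - P0.1)| := by
            rw [abs_mul, abs_of_pos hLR]
        _ = ((y - x : ℤ) : ℝ) * |a * ((P1.1 : ℝ) - P0.1) + b * ((P1.2 : ℝ) - P0.2)| := by
            rw [hid, abs_mul, abs_of_pos hkR]
        _ ≤ ((y - x : ℤ) : ℝ) * w := mul_le_mul_of_nonneg_left hwD hkR.le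
    have hw0 : 0 ≤ w := le_trans (abs_nonneg _) hwD
    have hfin : (|a * ((y - x : ℤ) : ℝ) + b * ((Py.2 - Px.2 : ℤ) : ℝ)| * ((T.card : ℝ) - 1)) *
        ((P1.1 : ℝ) - P0.1) ≤ w * ((P1.1 : ℝ) - P0.1) := by
      calc (|a * ((y - x : ℤ) : ℝ) + b * ((Py.2 - Px.2 : ℤ) : ℝ)| * ((T.card : ℝ) - 1)) *
        ((P1.1 : ℝ) - P0.1) = (|a * ((y - x : ℤ) : ℝ) + b * ((Py.2 - Px.2 : ℤ) : ℝ)| *
        ((P1.1 : ℝ) - P0.1)) * ((T.card : ℝ) - 1) := by ring
        _ ≤ (((y - x : ℤ) : ℝ) * w) * ((T.card : ℝ) - 1) :=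
            mul_le_mul_of_nonneg_right habs hMR
        _ = w * (((y - x : ℤ) : ℝ) * ((T.card : ℝ) - 1)) := by ring
        _ ≤ w * ((P1.1 : ℝ) - P0.1) := mul_le_mul_of_nonneg_left hleR hw0
    exact le_of_mul_le_mul_right hfin hLR

/-- Many integer points in a thin strip force a short integer vector almost along the strip. -/
lemma strip_step (S : Finset (ℤ × ℤ)) (m : ℤ) (hm : 1 ≤ m) (a b : ℝ) (hab : a ^ 2 + b ^ 2 = 1)
    (hbox : ∀ P ∈ S, ∀ Q ∈ S, |P.1 - Q.1| ≤ m ∧ |P.2 - Q.2| ≤ m)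
    (hw : ∀ P ∈ S, ∀ Q ∈ S, |a * ((P.1 : ℝ) - Q.1) + b * ((P.2 : ℝ) - Q.2)| ≤ 8 / m)
    (hN : 130 ≤ S.card) :
    ∃ k l : ℤ, (k ≠ 0 ∨ l ≠ 0) ∧ |k| * (S.card : ℤ) ≤ 195 * m ∧ |l| * (S.card : ℤ) ≤ 195 * m ∧
      |a * k + b * l| * (S.card : ℝ) ≤ 1560 / m := by
  classical
  have hmR : (1 : ℝ) ≤ (m : ℝ) := by exact_mod_cast hm
  have hm0 : (0 : ℝ) < (m : ℝ) := by linarith
  obtain ⟨P0, hP0, P1, hP1, hne⟩ := Finset.one_lt_card.mp (show 1 < S.card by omega)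
  set dx : ℤ := P1.1 - P0.1 with hdx
  set dy : ℤ := P1.2 - P0.2 with hdy
  have ha1 : |a| ≤ 1 := by
    rw [abs_le]; constructor <;> nlinarith [sq_nonneg b, sq_nonneg (a-1), sq_nonneg (a+1)]
  have hb1 : |b| ≤ 1 := by
    rw [abs_le]; constructor <;> nlinarith [sq_nonneg a, sq_nonneg (b-1), sq_nonneg (b+1)]
  have hv : ∀ P ∈ S, ∀ Q ∈ S, |a * ((P.2 : ℝ) - Q.2) - b * ((P.1 : ℝ) - Q.1)| ≤ 2 * m := by
    intro P hP Q hQ
    obtain ⟨h1, h2⟩ := hbox P hP Q hQ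
    have h1' : |(P.1 : ℝ) - Q.1| ≤ m := by
      have : ((|P.1 - Q.1| : ℤ) : ℝ) ≤ (m : ℝ) := by exact_mod_cast h1
      simpa using this
    have h2' : |(P.2 : ℝ) - Q.2| ≤ m := by
      have : ((|P.2 - Q.2| : ℤ) : ℝ) ≤ (m : ℝ) := by exact_mod_cast h2
      simpa using this
    calc |a * ((P.2 : ℝ) - Q.2) - b * ((P.1 : ℝ) - Q.1)|
        ≤ |a * ((P.2 : ℝ) - Q.2)| + |b * ((P.1 : ℝ) - Q.1)| := abs_sub _ _
      _ = |a| * |(P.2 : ℝ) - Q.2| + |b| * |(P.1 : ℝ) - Q.1| := by rw [abs_mul, abs_mul]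
      _ ≤ 1 * m + 1 * m := by
          apply add_le_add
          · exact mul_le_mul ha1 h2' (abs_nonneg _) (by norm_num)
          · exact mul_le_mul hb1 h1' (abs_nonneg _) (by norm_num)
      _ = 2 * m := by ring
  let r : ℤ × ℤ → ℤ := fun P => dx * (P.2 - P0.2) - dy * (P.1 - P0.1)
  have hr : ∀ P ∈ S, r P ∈ Finset.Icc (-32 : ℤ) 32 := by
    intro P hP
    have hdet : ((r P : ℤ) : ℝ) =
        (a * ((P1.1 : ℝ) - P0.1) + b * ((P1.2 : ℝ) - P0.2)) *
          (a * ((P.2 : ℝ) - P0.2) - b * ((P.1 : ℝ) - P0.1)) -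
        (a * ((P1.2 : ℝ) - P0.2) - b * ((P1.1 : ℝ) - P0.1)) *
          (a * ((P.1 : ℝ) - P0.1) + b * ((P.2 : ℝ) - P0.2)) := by
      simp only [r, hdx, hdy]
      push_cast
      linear_combination (-(((P1.1 : ℝ) - P0.1) * ((P.2 : ℝ) - P0.2) -
        ((P1.2 : ℝ) - P0.2) * ((P.1 : ℝ) - P0.1))) * hab
    have hbound : |((r P : ℤ) : ℝ)| ≤ 32 := by
      rw [hdet]
      have e1 := hw P1 hP1 P0 hP0
      have e2 := hv P hP P0 hP0
      have e3 := hv P1 hP1 P0 hP0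
      have e4 := hw P hP P0 hP0
      have h8 : (0 : ℝ) ≤ 8 / m := by positivity
      have h2m : (0 : ℝ) ≤ 2 * m := by positivity
      calc _ ≤ |(a * ((P1.1 : ℝ) - P0.1) + b * ((P1.2 : ℝ) - P0.2)) *
          (a * ((P.2 : ℝ) - P0.2) - b * ((P.1 : ℝ) - P0.1))| +
          |(a * ((P1.2 : ℝ) - P0.2) - b * ((P1.1 : ℝ) - P0.1)) *
          (a * ((P.1 : ℝ) - P0.1) + b * ((P.2 : ℝ) - P0.2))| := abs_sub _ _
        _ ≤ (8 / m) * (2 * m) + (2 * m) * (8 / m) := by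
            rw [abs_mul, abs_mul]
            apply add_le_add
            · exact mul_le_mul e1 e2 (abs_nonneg _) h8
            · exact mul_le_mul e3 e4 (abs_nonneg _) h2m
        _ = 32 := by field_simp; norm_num
    rw [abs_le] at hbound
    rw [Finset.mem_Icc]
    constructor
    · have : ((-32 : ℤ) : ℝ) ≤ ((r P : ℤ) : ℝ) := by push_cast; linarith [hbound.1]
      exact_mod_cast this
    · have : ((r P : ℤ) : ℝ) ≤ ((32 : ℤ) : ℝ) := by push_cast; linarith [hbound.2]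
      exact_mod_cast this
  have hcardI : (Finset.Icc (-32 : ℤ) 32).card = 65 := by simp
  obtain ⟨r0, hr0, hfib⟩ := Finset.exists_le_card_fiber_of_mul_le_card_of_maps_to
    (s := S) (t := Finset.Icc (-32 : ℤ) 32) (f := r) (n := S.card / 65) hr
    ⟨0, by simp⟩ (by rw [hcardI]; omega)
  set T := S.filter (fun P => r P = r0) with hT
  have hTS : T ⊆ S := Finset.filter_subset _ _
  have hTcard : S.card / 65 ≤ T.card := hfib
  have hT2 : 2 ≤ T.card := by omega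
  have hcol : ∀ P ∈ T, ∀ Q ∈ T, dx * (P.2 - Q.2) = dy * (P.1 - Q.1) := by
    intro P hP Q hQ
    have h1 : r P = r0 := (Finset.mem_filter.mp hP).2
    have h2 : r Q = r0 := (Finset.mem_filter.mp hQ).2
    have h3 : dx * (P.2 - P0.2) - dy * (P.1 - P0.1) = dx * (Q.2 - P0.2) - dy * (Q.1 - P0.1) := by
      have := h1.trans h2.symm
      simpa [r] using this
    linarith
  -- common conclusion
  have hfinish : ∀ k l : ℤ, |k| * ((T.card : ℤ) - 1) ≤ m → |l| * ((T.card : ℤ) - 1) ≤ m →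
      |a * k + b * l| * ((T.card : ℝ) - 1) ≤ 8 / m →
      |k| * (S.card : ℤ) ≤ 195 * m ∧ |l| * (S.card : ℤ) ≤ 195 * m ∧
      |a * k + b * l| * (S.card : ℝ) ≤ 1560 / m := by
    intro k l h1 h2 h3
    have hS : (S.card : ℤ) ≤ 195 * ((T.card : ℤ) - 1) := by omega
    have hSR : (S.card : ℝ) ≤ 195 * ((T.card : ℝ) - 1) := by exact_mod_cast hS
    refine ⟨?_, ?_, ?_⟩
    · calc |k| * (S.card : ℤ) ≤ |k| * (195 * ((T.card : ℤ) - 1)) :=
            mul_le_mul_of_nonneg_left hS (abs_nonneg _)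
        _ = 195 * (|k| * ((T.card : ℤ) - 1)) := by ring
        _ ≤ 195 * m := by linarith
    · calc |l| * (S.card : ℤ) ≤ |l| * (195 * ((T.card : ℤ) - 1)) :=
            mul_le_mul_of_nonneg_left hS (abs_nonneg _)
        _ = 195 * (|l| * ((T.card : ℤ) - 1)) := by ring
        _ ≤ 195 * m := by linarith
    · calc |a * k + b * l| * (S.card : ℝ) ≤ |a * k + b * l| * (195 * ((T.card : ℝ) - 1)) :=
            mul_le_mul_of_nonneg_left hSR (abs_nonneg _)
        _ = 195 * (|a * k + b * l| * ((T.card : ℝ) - 1)) := by ring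
        _ ≤ 195 * (8 / m) := by linarith
        _ = 1560 / m := by ring
  rcases le_total |dy| |dx| with hle | hle
  · have hdx0 : dx ≠ 0 := by
      intro h
      rw [h, abs_zero] at hle
      have hdy0 : dy = 0 := abs_nonpos_iff.mp hle
      exact hne (Prod.ext (by omega) (by omega))
    obtain ⟨k, l, hkl, h1, h2, h3⟩ := collinear_step T m a b (8 / m) dx dy hdx0 hle hcol
      (fun P hP Q hQ => le_trans (le_abs_self _) (hbox P (hTS hP) Q (hTS hQ)).1)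
      (fun P hP Q hQ => hw P (hTS hP) Q (hTS hQ)) hT2
    exact ⟨k, l, hkl, hfinish k l h1 h2 h3⟩
  · have hdy0 : dy ≠ 0 := by
      intro h
      rw [h, abs_zero] at hle
      have hdx0 : dx = 0 := abs_nonpos_iff.mp hle
      exact hne (Prod.ext (by omega) (by omega))
    -- swapped set
    have hsc : (T.map (Equiv.prodComm ℤ ℤ).toEmbedding).card = T.card := Finset.card_map _
    obtain ⟨k, l, hkl, h1, h2, h3⟩ := collinear_step (T.map (Equiv.prodComm ℤ ℤ).toEmbedding) m b a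
      (8 / m) dy dx hdy0 hle
      (by
        intro P hP Q hQ
        obtain ⟨P', hP', rfl⟩ := Finset.mem_map.mp hP
        obtain ⟨Q', hQ', rfl⟩ := Finset.mem_map.mp hQ
        have := hcol P' hP' Q' hQ'
        simp only [Equiv.coe_toEmbedding, Equiv.prodComm_apply, Prod.fst_swap, Prod.snd_swap]
        linarith)
      (by
        intro P hP Q hQ
        obtain ⟨P', hP', rfl⟩ := Finset.mem_map.mp hP
        obtain ⟨Q', hQ', rfl⟩ := Finset.mem_map.mp hQ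
        simp only [Equiv.coe_toEmbedding, Equiv.prodComm_apply, Prod.fst_swap]
        exact le_trans (le_abs_self _) (hbox P' (hTS hP') Q' (hTS hQ')).2)
      (by
        intro P hP Q hQ
        obtain ⟨P', hP', rfl⟩ := Finset.mem_map.mp hP
        obtain ⟨Q', hQ', rfl⟩ := Finset.mem_map.mp hQ
        have := hw P' (hTS hP') Q' (hTS hQ')
        simp only [Equiv.coe_toEmbedding, Equiv.prodComm_apply, Prod.fst_swap, Prod.snd_swap]
        rw [add_comm]
        exact this)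
      (by rw [hsc]; exact hT2)
    rw [hsc] at h1 h2 h3
    rw [add_comm] at h3
    exact ⟨l, k, hkl.symm, hfinish l k h2 h1 h3⟩

end Pool.Agent.Strips47
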