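import Pool.Agent.Strips47.Body

set_option autoImplicit false

namespace Pool.Agent.Strips47

open Finset

open Classical in
/-- Body points orthogonal to `u` modulo `q`. -/
noncomputable def lat (d n q : ℕ) (a b : ℝ) (u : Fin (d + 2) → ZMod q) (j : ℕ) :
    Finset (Fin (d + 2) → ℤ) :=
  (body d n j a b).filter (fun X => ∑ l, u l * (X l : ZMod q) = 0)

lemma mem_lat {d n q : ℕ} {a b : ℝ} {u : Fin (d + 2) → ZMod q} {j : ℕ}
    {X : Fin (d + 2) → ℤ} :
    X ∈ lat d n q a b u j ↔ ((∀ k, |X k| * 2 ^ j ≤ n) ∧ |a * X 0 + b * X 1| * 2 ^ j ≤ 2) ∧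
      ∑ l, u l * (X l : ZMod q) = 0 := by
  unfold lat
  rw [Finset.mem_filter, mem_body]

/-- Integer vectors orthogonal to `u` modulo `q`. -/
def orthSub (D q : ℕ) (u : Fin D → ZMod q) : Submodule ℤ (Fin D → ℤ) where
  carrier := {X | ∑ l, u l * (X l : ZMod q) = 0}
  add_mem' := by
    intro X Y hX hY
    simp only [Set.mem_ofPred_eq] at *
    simp only [Pi.add_apply, Int.cast_add, mul_add, Finset.sum_add_distrib, hX, hY, add_zero]
  zero_mem' := by simp
  smul_mem' := by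
    intro c X hX
    simp only [Set.mem_ofPred_eq] at *
    simp only [Pi.smul_apply, smul_eq_mul, Int.cast_mul]
    calc ∑ l, u l * ((c : ZMod q) * (X l : ZMod q)) =
        (c : ZMod q) * ∑ l, u l * (X l : ZMod q) := by
          rw [Finset.mul_sum]; apply Finset.sum_congr rfl; intro l _; ring
      _ = 0 := by rw [hX, mul_zero]

lemma lat_doubling (d n q : ℕ) (a b : ℝ) (u : Fin (d + 2) → ZMod q) (j : ℕ) :
    (lat d n q a b u j).card ≤ 4 ^ rk (lat d n q a b u j) * (lat d n q a b u (j + 1)).card := by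
  apply doubling
  intro X hX Y hY Z hZ hXY
  rw [mem_lat] at hX hY ⊢
  refine ⟨⟨?_, ?_⟩, ?_⟩
  · intro k
    have h1 := hX.1.1 k
    have h2 := hY.1.1 k
    have h3 : X k - Y k = 4 * Z k := by
      have := congrFun hXY k
      simpa using this
    have h4 : 4 * |Z k| ≤ |X k| + |Y k| := by
      calc 4 * |Z k| = |4 * Z k| := by rw [abs_mul]; norm_num
        _ = |X k - Y k| := by rw [h3]
        _ ≤ |X k| + |Y k| := abs_sub _ _
    have h5 : 4 * |Z k| * 2 ^ j ≤ (|X k| + |Y k|) * 2 ^ j :=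
      mul_le_mul_of_nonneg_right h4 (by positivity)
    rw [pow_succ]
    nlinarith
  · have h1 := hX.1.2
    have h2 := hY.1.2
    have h30 : (X 0 : ℝ) - Y 0 = 4 * Z 0 := by
      have := congrFun hXY 0
      have h : X 0 - Y 0 = 4 * Z 0 := by simpa using this
      exact_mod_cast h
    have h31 : (X 1 : ℝ) - Y 1 = 4 * Z 1 := by
      have := congrFun hXY 1
      have h : X 1 - Y 1 = 4 * Z 1 := by simpa using this
      exact_mod_cast h
    have h4 : 4 * |a * Z 0 + b * Z 1| ≤ |a * X 0 + b * X 1| + |a * Y 0 + b * Y 1| := by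
      calc 4 * |a * Z 0 + b * Z 1| = |4 * (a * Z 0 + b * Z 1)| := by rw [abs_mul]; norm_num
        _ = |(a * X 0 + b * X 1) - (a * Y 0 + b * Y 1)| := by
            congr 1
            linear_combination (-a) * h30 + (-b) * h31
        _ ≤ |a * X 0 + b * X 1| + |a * Y 0 + b * Y 1| := abs_sub _ _
    have h5 : 4 * |a * Z 0 + b * Z 1| * 2 ^ j ≤
        (|a * X 0 + b * X 1| + |a * Y 0 + b * Y 1|) * 2 ^ j :=
      mul_le_mul_of_nonneg_right h4 (by positivity)
    rw [pow_succ]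
    nlinarith
  · have h1 : Submodule.span ℤ (lat d n q a b u j : Set (Fin (d + 2) → ℤ)) ≤
        orthSub (d + 2) q u := by
      rw [Submodule.span_le]
      intro W hW
      exact (mem_lat.mp hW).2
    exact h1 hZ

lemma lat_last (d n q : ℕ) (a b : ℝ) (u : Fin (d + 2) → ZMod q) :
    (lat d n q a b u n).card ≤ 1 := by
  rw [Finset.card_le_one]
  intro X hX Y hY
  have hX' : X ∈ body d n n a b := (Finset.mem_filter.mp hX).1
  have hY' : Y ∈ body d n n a b := (Finset.mem_filter.mp hY).1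
  rw [body_trivial Nat.lt_two_pow_self hX', body_trivial Nat.lt_two_pow_self hY']

lemma lat_anti (d n q : ℕ) (a b : ℝ) (u : Fin (d + 2) → ZMod q) (j : ℕ) :
    lat d n q a b u (j + 1) ⊆ lat d n q a b u j := by
  intro X hX
  rw [mem_lat] at hX ⊢
  refine ⟨⟨?_, ?_⟩, hX.2⟩
  · intro k
    have h1 := hX.1.1 k
    rw [pow_succ] at h1
    have h2 : 0 ≤ |X k| * 2 ^ j := by positivity
    nlinarith
  · have h1 := hX.1.2
    rw [pow_succ] at h1
    have h2 : 0 ≤ |a * X 0 + b * X 1| * 2 ^ j := by positivity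
    nlinarith

/-- Many lattice points in the body: independent vectors at one scale. -/
lemma many_points (d n q h H L : ℕ) (a b : ℝ) (u : Fin (d + 2) → ZMod q) (hH : 1 ≤ H)
    (hharm : ∑ i ∈ Finset.range h, 1 / ((i : ℝ) + 1) ≤ H)
    (hd : d + 2 = 2 * h) (hL : 4 ^ L < (lat d n q a b u 0).card) :
    ∃ i j : ℕ, 1 ≤ i ∧ i ≤ h ∧ j < n ∧ 2 ^ j ≤ n ∧ L + 1 ≤ 2 * H * (i * (j + 1)) ∧
      ∃ Y : Fin i → (Fin (d + 2) → ℤ), (∀ l, Y l ∈ lat d n q a b u j) ∧
        LinearIndependent ℚ (fun l => toQ (Y l)) := by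
  have h1 := chain_card (lat d n q a b u) (lat_doubling d n q a b u) n
  have h2 : (lat d n q a b u 0).card ≤ 4 ^ (∑ j ∈ Finset.range n, rk (lat d n q a b u j)) := by
    calc _ ≤ _ := h1
      _ ≤ 4 ^ (∑ j ∈ Finset.range n, rk (lat d n q a b u j)) * 1 :=
          Nat.mul_le_mul_left _ (lat_last d n q a b u)
      _ = _ := mul_one _
  have h3 : L + 1 ≤ ∑ j ∈ Finset.range n, rk (lat d n q a b u j) := by
    have := lt_of_lt_of_le hL h2
    exact (Nat.pow_lt_pow_iff_right (by norm_num)).mp this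
  obtain ⟨i, j, hi1, hik, hjn, hir, hLij⟩ := choose_scale (fun j => rk (lat d n q a b u j))
    (fun j => rk_mono (lat_anti d n q a b u j)) h H n L hH hharm
    (fun j => by
      have := rk_le (lat d n q a b u j)
      omega) h3
  obtain ⟨Y, hY, hli⟩ := exists_indep (lat d n q a b u j) i hir
  refine ⟨i, j, hi1, hik, hjn, ?_, hLij, Y, hY, hli⟩
  by_contra hcon
  push Not at hcon
  have h4 : Y ⟨0, hi1⟩ = 0 := body_trivial hcon (Finset.mem_filter.mp (hY ⟨0, hi1⟩)).1
  have h5 := hli.ne_zero ⟨0, hi1⟩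
  apply h5
  simp only [h4]
  funext l
  simp [toQ]

open Classical in
/-- The main count of `u` with many lattice points in the body. -/
lemma main_count (s d n q h H L : ℕ) (a b : ℝ) (hab : a ^ 2 + b ^ 2 = 1) (hH : 1 ≤ H)
    (hharm : ∑ i ∈ Finset.range h, 1 / ((i : ℝ) + 1) ≤ H)
    (hd : d + 2 = 2 * h) (hds : 4 * H * (s + 1) ≤ d) [hq : Fact q.Prime]
    (hqn : n ^ (d + 1) ≤ 2 * q) (hqs : (h).factorial * n ^ (h) < q) (hn : 1 ≤ n) :
    ((Finset.univ.filter (fun u : Fin (d + 2) → ZMod q =>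
      4 ^ L < (lat d n q a b u 0).card)).card : ℝ) ≤
      (h : ℝ) * (2 * 3 ^ (d + 3) * 2 ^ (d + 1)) ^ (h) * q ^ (d + 2) /
        4 ^ ((s + 1) * (L + 1)) := by
  have hq0 : (0 : ℝ) < q := by exact_mod_cast hq.out.pos
  set A : ℝ := 2 * 3 ^ (d + 3) * 2 ^ (d + 1) with hA
  have hA1 : 1 ≤ A := by
    have h1 : (1 : ℝ) ≤ 3 ^ (d + 3) := one_le_pow₀ (by norm_num)
    have h2 : (1 : ℝ) ≤ 2 ^ (d + 1) := one_le_pow₀ (by norm_num)
    rw [hA]; nlinarith
  let orth : (i : ℕ) → (Fin i → (Fin (d + 2) → ℤ)) → Finset (Fin (d + 2) → ZMod q) :=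
    fun i Y => Finset.univ.filter (fun u => ∀ k, ∑ l, u l * (Y k l : ZMod q) = 0)
  let tup : (i j : ℕ) → Finset (Fin i → (Fin (d + 2) → ℤ)) := fun i j =>
    (Fintype.piFinset (fun _ : Fin i => body d n j a b)).filter
      (fun Y => LinearIndependent ℚ (fun l => toQ (Y l)))
  let J : ℕ → Finset ℕ := fun i =>
    (Finset.range n).filter (fun j => 2 ^ j ≤ n ∧ L + 1 ≤ 2 * H * (i * (j + 1)))
  have hsub : Finset.univ.filter (fun u : Fin (d + 2) → ZMod q =>
      4 ^ L < (lat d n q a b u 0).card) ⊆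
      (Finset.Icc 1 (h)).biUnion (fun i => (J i).biUnion (fun j =>
        (tup i j).biUnion (fun Y => orth i Y))) := by
    intro u hu
    have hu' := (Finset.mem_filter.mp hu).2
    obtain ⟨i, j, h1, h2, h3, h4, h5, Y, h6, h7⟩ := many_points d n q h H L a b u hH hharm hd hu'
    simp only [Finset.mem_biUnion]
    refine ⟨i, Finset.mem_Icc.mpr ⟨h1, h2⟩, j, ?_, Y, ?_, ?_⟩
    · exact Finset.mem_filter.mpr ⟨Finset.mem_range.mpr h3, h4, h5⟩
    · refine Finset.mem_filter.mpr ⟨?_, h7⟩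
      rw [Fintype.mem_piFinset]
      intro l
      exact (Finset.mem_filter.mp (h6 l)).1
    · refine Finset.mem_filter.mpr ⟨Finset.mem_univ _, ?_⟩
      intro l
      exact (mem_lat.mp (h6 l)).2
  -- bound for one tuple
  have horth : ∀ i ∈ Finset.Icc 1 (h), ∀ j, ∀ Y ∈ tup i j,
      ((orth i Y).card : ℝ) ≤ q ^ (d + 2) / q ^ i := by
    intro i hi j Y hY
    obtain ⟨hYb, hli⟩ := Finset.mem_filter.mp hY
    rw [Fintype.mem_piFinset] at hYb
    have hik := (Finset.mem_Icc.mp hi).2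
    have h1 := count_orth (q := q) (n := n) Y hli
      (by
        intro l m
        have h2 := (mem_body.mp (hYb l)).1 m
        have h3 : |Y l m| * 1 ≤ |Y l m| * 2 ^ j :=
          mul_le_mul_of_nonneg_left (one_le_pow₀ (by norm_num)) (abs_nonneg _)
        linarith)
      (by
        calc i.factorial * n ^ i ≤ (h).factorial * n ^ (h) :=
              Nat.mul_le_mul (Nat.factorial_le hik) (Nat.pow_le_pow_right hn hik)
          _ < q := hqs)
    rw [le_div_iff₀ (by positivity)]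
    exact_mod_cast h1
  -- bound for one scale
  have hscale : ∀ i ∈ Finset.Icc 1 (h), ∀ j ∈ J i,
      (((tup i j).biUnion (fun Y => orth i Y)).card : ℝ) ≤
        A ^ (h) * q ^ (d + 2) / 4 ^ ((s + 1) * (L + 1)) / 2 ^ (j + 1) := by
    intro i hi j hj
    have hi1 := (Finset.mem_Icc.mp hi).1
    have hik := (Finset.mem_Icc.mp hi).2
    obtain ⟨_, hj2, hjL⟩ := Finset.mem_filter.mp hj
    have h1 : (((tup i j).biUnion (fun Y => orth i Y)).card : ℝ) ≤
        ∑ Y ∈ tup i j, ((orth i Y).card : ℝ) := by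
      exact_mod_cast Finset.card_biUnion_le
    have h2 : ∑ Y ∈ tup i j, ((orth i Y).card : ℝ) ≤
        ((tup i j).card : ℝ) * (q ^ (d + 2) / q ^ i) := by
      calc _ ≤ ∑ Y ∈ tup i j, ((q : ℝ) ^ (d + 2) / q ^ i) :=
            Finset.sum_le_sum (horth i hi j)
        _ = _ := by rw [Finset.sum_const, nsmul_eq_mul]
    have h3 : ((tup i j).card : ℝ) ≤ ((body d n j a b).card : ℝ) ^ i := by
      have h4 : (tup i j).card ≤ (body d n j a b).card ^ i := by
        calc (tup i j).card ≤ (Fintype.piFinset (fun _ : Fin i => body d n j a b)).card :=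
              Finset.card_filter_le _ _
          _ = (body d n j a b).card ^ i := by simp
      exact_mod_cast h4
    have hbody : ((body d n j a b).card : ℝ) ≤ A / 2 ^ ((j + 1) * (d + 1)) * q := by
      have h4 := card_body_le d n j a b hab hj2
      have h5 : ((body d n j a b).card : ℝ) * (2 ^ j) ^ (d + 1) ≤ 3 ^ (d + 3) * n ^ (d + 1) := by
        exact_mod_cast h4
      have h6 : ((n : ℝ)) ^ (d + 1) ≤ 2 * q := by exact_mod_cast hqn
      have h7 : ((body d n j a b).card : ℝ) * (2 ^ j) ^ (d + 1) ≤ 3 ^ (d + 3) * (2 * q) :=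
        h5.trans (mul_le_mul_of_nonneg_left h6 (by positivity))
      have h8 : (2 : ℝ) ^ ((j + 1) * (d + 1)) = (2 ^ j) ^ (d + 1) * 2 ^ (d + 1) := by
        rw [add_mul, one_mul, pow_add, pow_mul]
      rw [h8, div_mul_eq_mul_div, le_div_iff₀ (by positivity), hA]
      calc ((body d n j a b).card : ℝ) * ((2 ^ j) ^ (d + 1) * 2 ^ (d + 1))
          = (((body d n j a b).card : ℝ) * (2 ^ j) ^ (d + 1)) * 2 ^ (d + 1) := by ring
        _ ≤ (3 ^ (d + 3) * (2 * q)) * 2 ^ (d + 1) :=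
            mul_le_mul_of_nonneg_right h7 (by positivity)
        _ = 2 * 3 ^ (d + 3) * 2 ^ (d + 1) * q := by ring
    have h9 : ((body d n j a b).card : ℝ) ^ i * (q ^ (d + 2) / q ^ i) ≤
        A ^ (h) * q ^ (d + 2) / 2 ^ (((j + 1) * (d + 1)) * i) := by
      calc ((body d n j a b).card : ℝ) ^ i * (q ^ (d + 2) / q ^ i)
          ≤ (A / 2 ^ ((j + 1) * (d + 1)) * q) ^ i * (q ^ (d + 2) / q ^ i) :=
            mul_le_mul_of_nonneg_right
              (pow_le_pow_left₀ (Nat.cast_nonneg _) hbody i) (by positivity)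
        _ = A ^ i * q ^ (d + 2) / 2 ^ (((j + 1) * (d + 1)) * i) := by
            rw [mul_pow, div_pow, ← pow_mul]; field_simp
        _ ≤ A ^ (h) * q ^ (d + 2) / 2 ^ (((j + 1) * (d + 1)) * i) := by
            apply div_le_div_of_nonneg_right _ (by positivity)
            exact mul_le_mul_of_nonneg_right (pow_le_pow_right₀ hA1 hik) (by positivity)
    have hexp : (j + 1) + 2 * ((s + 1) * (L + 1)) ≤ ((j + 1) * (d + 1)) * i := by
      have e1 : 2 * ((s + 1) * (L + 1)) ≤ 2 * ((s + 1) * (2 * H * (i * (j + 1)))) :=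
        Nat.mul_le_mul_left _ (Nat.mul_le_mul_left _ hjL)
      have e2 : 2 * ((s + 1) * (2 * H * (i * (j + 1)))) = (4 * H * (s + 1)) * (i * (j + 1)) := by
        ring
      have e3 : (4 * H * (s + 1)) * (i * (j + 1)) ≤ d * (i * (j + 1)) :=
        Nat.mul_le_mul_right _ hds
      have e4 : (j + 1) * 1 ≤ (j + 1) * i := Nat.mul_le_mul_left _ hi1
      calc (j + 1) + 2 * ((s + 1) * (L + 1)) ≤ (j + 1) * i + d * (i * (j + 1)) := by
            rw [e2] at e1; omega
        _ = ((j + 1) * (d + 1)) * i := by ring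
    have h10 : A ^ (h) * q ^ (d + 2) / 2 ^ (((j + 1) * (d + 1)) * i) ≤
        A ^ (h) * q ^ (d + 2) / 4 ^ ((s + 1) * (L + 1)) / 2 ^ (j + 1) := by
      rw [div_div]
      apply div_le_div_of_nonneg_left (by positivity) (by positivity)
      have : (4 : ℝ) ^ ((s + 1) * (L + 1)) * 2 ^ (j + 1) =
          2 ^ ((j + 1) + 2 * ((s + 1) * (L + 1))) := by
        rw [show (4 : ℝ) = 2 ^ 2 by norm_num, ← pow_mul, ← pow_add]
        congr 1; ring
      rw [this]
      exact pow_le_pow_right₀ (by norm_num) hexp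
    calc _ ≤ _ := h1
      _ ≤ _ := h2
      _ ≤ ((body d n j a b).card : ℝ) ^ i * (q ^ (d + 2) / q ^ i) :=
          mul_le_mul_of_nonneg_right h3 (by positivity)
      _ ≤ _ := h9
      _ ≤ _ := h10
  -- sum over scales
  have hgeo : ∀ m : ℕ, ∑ j ∈ Finset.range m, (1 : ℝ) / 2 ^ (j + 1) ≤ 1 := by
    intro m
    have h : ∑ j ∈ Finset.range m, (1 : ℝ) / 2 ^ (j + 1) = 1 - 1 / 2 ^ m := by
      induction m with
      | zero => simp
      | succ m ih =>
        rw [Finset.sum_range_succ, ih, pow_succ]; field_simp; ring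
    rw [h]
    have : (0 : ℝ) < 1 / 2 ^ m := by positivity
    linarith
  set B : ℝ := A ^ (h) * q ^ (d + 2) / 4 ^ ((s + 1) * (L + 1)) with hB
  have hB0 : 0 ≤ B := by positivity
  have hi_bound : ∀ i ∈ Finset.Icc 1 (h),
      (((J i).biUnion (fun j => (tup i j).biUnion (fun Y => orth i Y))).card : ℝ) ≤ B := by
    intro i hi
    calc (((J i).biUnion (fun j => (tup i j).biUnion (fun Y => orth i Y))).card : ℝ)
        ≤ ∑ j ∈ J i, (((tup i j).biUnion (fun Y => orth i Y)).card : ℝ) := by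
          exact_mod_cast Finset.card_biUnion_le
      _ ≤ ∑ j ∈ J i, B / 2 ^ (j + 1) := Finset.sum_le_sum (hscale i hi)
      _ ≤ ∑ j ∈ Finset.range n, B / 2 ^ (j + 1) :=
          Finset.sum_le_sum_of_subset_of_nonneg (Finset.filter_subset _ _)
            (fun j _ _ => by positivity)
      _ = B * ∑ j ∈ Finset.range n, (1 : ℝ) / 2 ^ (j + 1) := by
          rw [Finset.mul_sum]; apply Finset.sum_congr rfl; intro j _; ring
      _ ≤ B * 1 := mul_le_mul_of_nonneg_left (hgeo n) hB0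
      _ = B := mul_one _
  calc ((Finset.univ.filter (fun u : Fin (d + 2) → ZMod q =>
      4 ^ L < (lat d n q a b u 0).card)).card : ℝ)
      ≤ (((Finset.Icc 1 (h)).biUnion (fun i => (J i).biUnion (fun j =>
        (tup i j).biUnion (fun Y => orth i Y)))).card : ℝ) := by
        exact_mod_cast Finset.card_le_card hsub
    _ ≤ ∑ i ∈ Finset.Icc 1 (h),
        (((J i).biUnion (fun j => (tup i j).biUnion (fun Y => orth i Y))).card : ℝ) := by
        exact_mod_cast Finset.card_biUnion_le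
    _ ≤ ∑ i ∈ Finset.Icc 1 (h), B := Finset.sum_le_sum hi_bound
    _ = (h : ℝ) * B := by
        rw [Finset.sum_const, nsmul_eq_mul, Nat.card_Icc]; push_cast; simp
    _ = (h : ℝ) * A ^ (h) * q ^ (d + 2) / 4 ^ ((s + 1) * (L + 1)) := by
        rw [hB]; ring

end Pool.Agent.Strips47
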