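import Mathlib

set_option autoImplicit false

namespace Pool.Agent.Strips47

open Finset

/-- Integer vectors as rational vectors. -/
def toQ {D : ℕ} (X : Fin D → ℤ) : Fin D → ℚ := fun k => (X k : ℚ)

/-- `toQ` as a linear map. -/
def toQL (D : ℕ) : (Fin D → ℤ) →ₗ[ℤ] (Fin D → ℚ) where
  toFun := toQ
  map_add' X Y := by funext k; simp [toQ]
  map_smul' c X := by funext k; simp [toQ]

lemma toQL_injective (D : ℕ) : Function.Injective (toQL D) := by
  intro X Y h
  funext k
  have := congrFun h k
  simpa [toQL, toQ] using this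

/-- Rank of a finite set of integer vectors. -/
noncomputable def rk {D : ℕ} (S : Finset (Fin D → ℤ)) : ℕ :=
  Module.finrank ℚ (Submodule.span ℚ (toQ '' (S : Set (Fin D → ℤ))))

lemma rk_mono {D : ℕ} {S T : Finset (Fin D → ℤ)} (h : S ⊆ T) : rk S ≤ rk T := by
  apply Submodule.finrank_mono
  apply Submodule.span_mono
  exact Set.image_mono (by exact_mod_cast h)

lemma rk_le {D : ℕ} (S : Finset (Fin D → ℤ)) : rk S ≤ D := by
  have h := Submodule.finrank_le (Submodule.span ℚ (toQ '' (S : Set (Fin D → ℤ))))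
  rw [Module.finrank_fin_fun] at h
  exact h

/-- A set of rank at least `i` contains `i` linearly independent vectors. -/
lemma exists_indep {D : ℕ} (S : Finset (Fin D → ℤ)) (i : ℕ) (hi : i ≤ rk S) :
    ∃ Y : Fin i → (Fin D → ℤ), (∀ k, Y k ∈ S) ∧ LinearIndependent ℚ (fun k => toQ (Y k)) := by
  classical
  obtain ⟨b, hbS, hspan, hli⟩ := exists_linearIndependent ℚ (toQ '' (S : Set (Fin D → ℤ)))
  have hfin : b.Finite := Set.Finite.subset (S.finite_toSet.image _) hbS
  have : Fintype b := hfin.fintype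
  have hcard : Fintype.card b = rk S := by
    rw [rk, ← hspan, ← finrank_span_eq_card hli]
    rw [Subtype.range_coe]
  have hle : i ≤ Fintype.card b := by rw [hcard]; exact hi
  obtain ⟨e⟩ : Nonempty (Fin i ↪ b) := by
    rw [Function.Embedding.nonempty_iff_card_le]
    simpa using hle
  have hch : ∀ k : Fin i, ∃ X ∈ S, toQ X = (e k : Fin D → ℚ) := by
    intro k
    obtain ⟨X, hX, hXe⟩ := hbS (e k).2
    exact ⟨X, by exact_mod_cast hX, hXe⟩
  choose Y hYS hYe using hch
  refine ⟨Y, hYS, ?_⟩
  have h2 : (fun k => toQ (Y k)) = (fun x : b => (x : Fin D → ℚ)) ∘ e := by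
    funext k; exact hYe k
  rw [h2]
  exact hli.comp e e.injective

/-- The integer span of a finite set has integer rank at most its rank. -/
lemma finrank_span_le {D : ℕ} (S : Finset (Fin D → ℤ)) :
    Module.finrank ℤ (Submodule.span ℤ (S : Set (Fin D → ℤ))) ≤ rk S := by
  classical
  set M := Submodule.span ℤ (S : Set (Fin D → ℤ)) with hM
  let b := Module.finBasis ℤ M
  have h1 : LinearIndependent ℤ (fun i => toQL D ((b i : M) : Fin D → ℤ)) := by
    have hb := b.linearIndependent
    have h2 : LinearIndependent ℤ (fun i => ((b i : M) : Fin D → ℤ)) :=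
      hb.map' M.subtype (Submodule.ker_subtype M)
    exact h2.map' (toQL D) (LinearMap.ker_eq_bot.mpr (toQL_injective D))
  have h3 : LinearIndependent ℚ (fun i => toQL D ((b i : M) : Fin D → ℤ)) :=
    (LinearIndependent.iff_fractionRing ℤ ℚ).mp h1
  have h4 : ∀ i, toQL D ((b i : M) : Fin D → ℤ) ∈
      Submodule.span ℚ (toQ '' (S : Set (Fin D → ℤ))) := by
    intro i
    have h5 : ∀ X ∈ M, toQL D X ∈ Submodule.span ℚ (toQ '' (S : Set (Fin D → ℤ))) := by
      intro X hX
      induction hX using Submodule.span_induction with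
      | mem x hx => exact Submodule.subset_span ⟨x, hx, rfl⟩
      | zero => simp
      | add x y _ _ hx hy => rw [map_add]; exact Submodule.add_mem _ hx hy
      | smul c x _ hx =>
        rw [map_smul]
        exact zsmul_mem hx c
    exact h5 _ (b i).2
  have h6 := LinearIndependent.fintype_card_le_finrank
    (b := fun i => (⟨toQL D ((b i : M) : Fin D → ℤ), h4 i⟩ :
      Submodule.span ℚ (toQ '' (S : Set (Fin D → ℤ)))))
    (LinearIndependent.of_comp (Submodule.subtype _) h3)
  simpa [rk] using h6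

/-- The doubling step. -/
lemma doubling {D : ℕ} (S S' : Finset (Fin D → ℤ))
    (h : ∀ X ∈ S, ∀ Y ∈ S, ∀ Z ∈ Submodule.span ℤ (S : Set (Fin D → ℤ)),
      X - Y = (4 : ℤ) • Z → Z ∈ S') :
    S.card ≤ 4 ^ rk S * S'.card := by
  classical
  set M := Submodule.span ℤ (S : Set (Fin D → ℤ)) with hM
  let b := Module.finBasis ℤ M
  let f : (Fin D → ℤ) → (Fin (Module.finrank ℤ M) → ZMod 4) := fun X =>
    if hX : X ∈ M then fun i => ((b.repr ⟨X, hX⟩ i : ℤ) : ZMod 4) else 0
  have hclass : ∀ c ∈ S.image f, (S.filter (fun X => f X = c)).card ≤ S'.card := by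
    intro c hc
    obtain ⟨X0, hX0, hX0c⟩ := Finset.mem_image.mp hc
    have hX0M : X0 ∈ M := Submodule.subset_span hX0
    have key : ∀ X ∈ S.filter (fun X => f X = c), ∃ Z ∈ M, X - X0 = (4 : ℤ) • Z := by
      intro X hX
      obtain ⟨hXS, hXc⟩ := Finset.mem_filter.mp hX
      have hXM : X ∈ M := Submodule.subset_span hXS
      have hdvd : ∀ i, (4 : ℤ) ∣ (b.repr ⟨X, hXM⟩ i - b.repr ⟨X0, hX0M⟩ i) := by
        intro i
        have h1 : f X i = f X0 i := by rw [hXc, hX0c]
        simp only [f, hXM, hX0M, dif_pos] at h1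
        have h2 := (ZMod.intCast_eq_intCast_iff_dvd_sub _ _ 4).mp h1
        have h3 : b.repr ⟨X, hXM⟩ i - b.repr ⟨X0, hX0M⟩ i =
          -(b.repr ⟨X0, hX0M⟩ i - b.repr ⟨X, hXM⟩ i) := by ring
        rw [h3]
        exact (dvd_neg).mpr h2
      choose g hg using hdvd
      refine ⟨((∑ i, g i • b i : M) : Fin D → ℤ), Subtype.property _, ?_⟩
      have h4 : (⟨X, hXM⟩ - ⟨X0, hX0M⟩ : M) = (4 : ℤ) • (∑ i, g i • b i) := by
        apply b.repr.injective
        ext i
        rw [map_sub, Finsupp.sub_apply, hg i, map_smul, Finsupp.smul_apply]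
        rw [Module.Basis.repr_sum_self]
        simp
      have h5 := congrArg (fun z : M => (z : Fin D → ℤ)) h4
      simpa using h5
    choose! Z hZM hZ using key
    have hmaps : ∀ X ∈ S.filter (fun X => f X = c), Z X ∈ S' := by
      intro X hX
      exact h X (Finset.mem_filter.mp hX).1 X0 hX0 (Z X) (hZM X hX) (hZ X hX)
    apply Finset.card_le_card_of_injOn Z hmaps
    intro X hX Y hY hXY
    have h1 := hZ X hX
    have h2 := hZ Y hY
    rw [hXY, ← h2] at h1
    exact sub_left_injective h1
  have h1 := Finset.card_le_mul_card_image (f := f) S S'.card hclass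
  have h2 : (S.image f).card ≤ 4 ^ rk S := by
    calc (S.image f).card ≤ Fintype.card (Fin (Module.finrank ℤ M) → ZMod 4) :=
          Finset.card_le_univ _
      _ = 4 ^ Module.finrank ℤ M := by simp [ZMod.card]
      _ ≤ 4 ^ rk S := Nat.pow_le_pow_right (by norm_num) (finrank_span_le S)
  calc S.card ≤ S'.card * (S.image f).card := h1
    _ ≤ S'.card * 4 ^ rk S := Nat.mul_le_mul_left _ h2
    _ = 4 ^ rk S * S'.card := by ring

end Pool.Agent.Strips47
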