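import Pool.Agent.Strips47.Core
import Pool.Agent.Strips47.Arcs

set_option autoImplicit false

namespace Pool.Agent.Strips47

open MeasureTheory Real

/-- The `i`-th point of the `m × m` grid, row by row. -/
noncomputable def gridPt (m n : ℕ) (i : Fin n) : ℝ × ℝ :=
  (((i.val % m : ℕ) : ℝ) / m, ((i.val / m : ℕ) : ℝ) / m)

lemma side_bounds (n : ℕ) (hn : 0 < n) :
    ∃ m : ℕ, 1 ≤ m ∧ n ≤ m ^ 2 ∧ m ^ 2 ≤ 4 * n := by
  refine ⟨Nat.sqrt (n - 1) + 1, by omega, ?_, ?_⟩
  · have := Nat.lt_succ_sqrt' (n - 1)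
    have h2 : Nat.succ (Nat.sqrt (n - 1)) = Nat.sqrt (n - 1) + 1 := rfl
    rw [h2] at this
    omega
  · have := Nat.sqrt_le' (n - 1)
    set s := Nat.sqrt (n - 1)
    have h3 : s ^ 2 + 1 ≤ n := by omega
    nlinarith [sq_nonneg ((s : ℤ) - 1), Nat.zero_le s, sq_nonneg (s)]

lemma gridPt_injective (m n : ℕ) (hm : 1 ≤ m) : Function.Injective (gridPt m n) := by
  intro i j h
  have hm0 : (m : ℝ) ≠ 0 := by
    have : (0 : ℝ) < m := by exact_mod_cast hm
    exact this.ne'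
  have h1 : ((i.val % m : ℕ) : ℝ) / m = ((j.val % m : ℕ) : ℝ) / m := congrArg Prod.fst h
  have h2 : ((i.val / m : ℕ) : ℝ) / m = ((j.val / m : ℕ) : ℝ) / m := congrArg Prod.snd h
  rw [div_left_inj' hm0] at h1 h2
  have h1' : i.val % m = j.val % m := by exact_mod_cast h1
  have h2' : i.val / m = j.val / m := by exact_mod_cast h2
  apply Fin.ext
  rw [← Nat.div_add_mod i.val m, ← Nat.div_add_mod j.val m, h1', h2']

lemma gridPt_mem (m n : ℕ) (hm : 1 ≤ m) (hnm : n ≤ m ^ 2) (i : Fin n) :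
    0 ≤ (gridPt m n i).1 ∧ (gridPt m n i).1 ≤ 1 ∧ 0 ≤ (gridPt m n i).2 ∧
      (gridPt m n i).2 ≤ 1 := by
  have hm0 : (0 : ℝ) < m := by exact_mod_cast hm
  have h1 : i.val % m < m := Nat.mod_lt _ hm
  have h2 : i.val / m < m := by
    apply Nat.div_lt_of_lt_mul
    have := i.isLt
    rw [← pow_two]; omega
  have h1R : ((i.val % m : ℕ) : ℝ) ≤ m := by exact_mod_cast h1.le
  have h2R : ((i.val / m : ℕ) : ℝ) ≤ m := by exact_mod_cast h2.le
  refine ⟨?_, ?_, ?_, ?_⟩
  · simp only [gridPt]; positivity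
  · simp only [gridPt]; rw [div_le_one hm0]; exact h1R
  · simp only [gridPt]; positivity
  · simp only [gridPt]; rw [div_le_one hm0]; exact h2R

/-- Points of the grid in a thin strip: a short integer vector almost along the strip. -/
lemma grid_strip (m n : ℕ) (hn : 0 < n) (hm : 1 ≤ m) (hnm : n ≤ m ^ 2) (hmn : m ^ 2 ≤ 4 * n)
    (a b c : ℝ) (hab : a ^ 2 + b ^ 2 = 1) (N : ℕ)
    (hN : N = (Finset.univ.filter (fun i : Fin n =>
      |a * (gridPt m n i).1 + b * (gridPt m n i).2 - c| ≤ 1 / (n : ℝ))).card)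
    (h130 : 130 ≤ N) :
    ∃ k l : ℤ, (k ≠ 0 ∨ l ≠ 0) ∧ |(k : ℝ)| * N ≤ 195 * m ∧ |(l : ℝ)| * N ≤ 195 * m ∧
      |a * k + b * l| * N ≤ 1560 / m := by
  classical
  have hm0 : (0 : ℝ) < m := by exact_mod_cast hm
  have hn0 : (0 : ℝ) < n := by exact_mod_cast hn
  set F := Finset.univ.filter (fun i : Fin n =>
      |a * (gridPt m n i).1 + b * (gridPt m n i).2 - c| ≤ 1 / (n : ℝ)) with hF
  let g : Fin n → ℤ × ℤ := fun i => (((i.val % m : ℕ) : ℤ), ((i.val / m : ℕ) : ℤ))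
  have hg : Function.Injective g := by
    intro i j h
    have h1 : ((i.val % m : ℕ) : ℤ) = ((j.val % m : ℕ) : ℤ) := congrArg Prod.fst h
    have h2 : ((i.val / m : ℕ) : ℤ) = ((j.val / m : ℕ) : ℤ) := congrArg Prod.snd h
    have h1' : i.val % m = j.val % m := by exact_mod_cast h1
    have h2' : i.val / m = j.val / m := by exact_mod_cast h2
    apply Fin.ext
    rw [← Nat.div_add_mod i.val m, ← Nat.div_add_mod j.val m, h1', h2']
  set S := F.image g with hS
  have hScard : S.card = N := by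
    rw [hS, Finset.card_image_of_injective _ hg, hN]
  have hbox : ∀ P ∈ S, ∀ Q ∈ S, |P.1 - Q.1| ≤ (m : ℤ) ∧ |P.2 - Q.2| ≤ (m : ℤ) := by
    intro P hP Q hQ
    obtain ⟨i, _, rfl⟩ := Finset.mem_image.mp hP
    obtain ⟨j, _, rfl⟩ := Finset.mem_image.mp hQ
    have h1 : i.val % m < m := Nat.mod_lt _ hm
    have h2 : j.val % m < m := Nat.mod_lt _ hm
    have h3 : i.val / m < m := by
      apply Nat.div_lt_of_lt_mul
      have := i.isLt
      rw [← pow_two]; omega
    have h4 : j.val / m < m := by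
      apply Nat.div_lt_of_lt_mul
      have := j.isLt
      rw [← pow_two]; omega
    simp only [g]
    generalize i.val % m = u1 at *
    generalize j.val % m = u2 at *
    generalize i.val / m = u3 at *
    generalize j.val / m = u4 at *
    constructor <;> (rw [abs_le]; constructor <;> omega)
  have hw : ∀ P ∈ S, ∀ Q ∈ S,
      |a * ((P.1 : ℝ) - Q.1) + b * ((P.2 : ℝ) - Q.2)| ≤ 8 / ((m : ℤ) : ℝ) := by
    intro P hP Q hQ
    obtain ⟨i, hi, rfl⟩ := Finset.mem_image.mp hP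
    obtain ⟨j, hj, rfl⟩ := Finset.mem_image.mp hQ
    have hi' := (Finset.mem_filter.mp hi).2
    have hj' := (Finset.mem_filter.mp hj).2
    simp only [gridPt] at hi' hj'
    simp only [g, Int.cast_natCast]
    set X := ((i.val % m : ℕ) : ℝ)
    set Y := ((i.val / m : ℕ) : ℝ)
    set X' := ((j.val % m : ℕ) : ℝ)
    set Y' := ((j.val / m : ℕ) : ℝ)
    have hid : a * (X - X') + b * (Y - Y') =
        m * ((a * (X / m) + b * (Y / m) - c) - (a * (X' / m) + b * (Y' / m) - c)) := by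
      field_simp
      ring
    have h1 : |(a * (X / m) + b * (Y / m) - c) - (a * (X' / m) + b * (Y' / m) - c)| ≤
        1 / (n : ℝ) + 1 / n := by
      refine (abs_sub _ _).trans (add_le_add hi' hj')
    have h2 : (m : ℝ) * (1 / (n : ℝ) + 1 / n) ≤ 8 / m := by
      rw [le_div_iff₀ hm0]
      have h3 : ((m : ℝ)) ^ 2 ≤ 4 * n := by exact_mod_cast hmn
      have h4 : (m : ℝ) * (1 / (n : ℝ) + 1 / n) * m = 2 * (m : ℝ) ^ 2 / n := by
        field_simp; ring
      rw [h4, div_le_iff₀ hn0]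
      linarith
    have h5 : |a * (X - X') + b * (Y - Y')| ≤ 8 / m := by
      rw [hid, abs_mul, abs_of_pos hm0]
      exact (mul_le_mul_of_nonneg_left h1 hm0.le).trans h2
    exact h5
  obtain ⟨k, l, hkl, h1, h2, h3⟩ := strip_step S (m : ℤ) (by exact_mod_cast hm) a b hab hbox hw
    (by rw [hScard]; exact h130)
  rw [hScard] at h1 h2 h3
  refine ⟨k, l, hkl, ?_, ?_, ?_⟩
  · have : ((|k| * (N : ℤ) : ℤ) : ℝ) ≤ ((195 * (m : ℤ) : ℤ) : ℝ) := by exact_mod_cast h1
    push_cast at this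
    exact this
  · have : ((|l| * (N : ℤ) : ℤ) : ℝ) ≤ ((195 * (m : ℤ) : ℤ) : ℝ) := by exact_mod_cast h2
    push_cast at this
    exact this
  · simpa using h3

end Pool.Agent.Strips47
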