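import Pool.Agent.Strips47.Average
import Pool.Agent.Strips47.Grid

set_option autoImplicit false

namespace Pool.Agent.Strips47

open Finset MeasureTheory Real

/-- Choice of one good `u`. -/
lemma exists_good_u (s d n q h H : ℕ) (hh : 1 ≤ h) (hH : 1 ≤ H)
    (hharm : ∑ i ∈ Finset.range h, 1 / ((i : ℝ) + 1) ≤ H)
    (hd : d + 2 = 2 * h) (hds : 4 * H * (s + 1) ≤ d) [hq : Fact q.Prime]
    (hqn : n ^ (d + 1) ≤ 2 * q) (hqs : (h).factorial * n ^ (h) < q) (hn : 1 ≤ n)
    (hinj : 4 * (2 * n) ^ d ≤ q) (hnq : n < q) :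
    ∃ u : Fin (d + 2) → ZMod q, ¬ BadInj d n q u ∧ ∀ L ≤ n,
      (4 : ℝ) ^ (s * L) * (mu (manySet d n q L u)).toReal ≤
        2 * π * ((h : ℝ) * (2 * 3 ^ (d + 3) * 2 ^ (d + 1)) ^ (h)) := by
  classical
  have hpi := Real.pi_pos
  have hq0 : (0 : ℝ) < q := by exact_mod_cast hq.out.pos
  have hhR : (1 : ℝ) ≤ h := by exact_mod_cast hh
  set C : ℝ := (h : ℝ) * (2 * 3 ^ (d + 3) * 2 ^ (d + 1)) ^ (h) with hC
  have hC0 : 0 < C := by positivity
  have hfin : ∀ L u, mu (manySet d n q L u) ≠ ⊤ := by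
    intro L u
    refine ne_top_of_le_ne_top ?_ (measure_mono (Set.subset_univ _))
    rw [mu_univ]; exact ENNReal.ofReal_ne_top
  -- real form of the averaged bound
  have hsumR : ∀ L, ∑ u : Fin (d + 2) → ZMod q, (mu (manySet d n q L u)).toReal ≤
      π * (C * q ^ (d + 2) / 4 ^ ((s + 1) * (L + 1))) := by
    intro L
    have hsm := sum_mu_le s d n q h H L hH hharm hd hds hqn hqs hn
    rw [← ENNReal.toReal_sum (fun u _ => hfin L u)]
    apply ENNReal.toReal_le_of_le_ofReal (by positivity)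
    exact hsm
  set g : (Fin (d + 2) → ZMod q) → ℝ := fun u =>
    ∑ L ∈ Finset.range (n + 1), (4 : ℝ) ^ (s * L) * (mu (manySet d n q L u)).toReal with hg
  have hgeo : ∀ m : ℕ, ∑ L ∈ Finset.range m, (1 : ℝ) / 4 ^ (L + 1) ≤ 1 := by
    intro m
    have h : ∑ j ∈ Finset.range m, (1 : ℝ) / 4 ^ (j + 1) = (1 - 1 / 4 ^ m) / 3 := by
      induction m with
      | zero => simp
      | succ m ih =>
        rw [Finset.sum_range_succ, ih, pow_succ]; field_simp; ring
    rw [h]
    have : (0 : ℝ) < 1 / 4 ^ m := by positivity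
    linarith
  have hgsum : ∑ u, g u ≤ π * C * q ^ (d + 2) := by
    calc ∑ u, g u = ∑ L ∈ Finset.range (n + 1), ∑ u : Fin (d + 2) → ZMod q,
          (4 : ℝ) ^ (s * L) * (mu (manySet d n q L u)).toReal := Finset.sum_comm
      _ = ∑ L ∈ Finset.range (n + 1), (4 : ℝ) ^ (s * L) * ∑ u : Fin (d + 2) → ZMod q,
          (mu (manySet d n q L u)).toReal := by
          apply Finset.sum_congr rfl; intro L _; rw [Finset.mul_sum]
      _ ≤ ∑ L ∈ Finset.range (n + 1), π * C * q ^ (d + 2) * (1 / 4 ^ (L + 1)) := by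
          apply Finset.sum_le_sum
          intro L _
          calc (4 : ℝ) ^ (s * L) * ∑ u : Fin (d + 2) → ZMod q, (mu (manySet d n q L u)).toReal
              ≤ (4 : ℝ) ^ (s * L) * (π * (C * q ^ (d + 2) / 4 ^ ((s + 1) * (L + 1)))) :=
                mul_le_mul_of_nonneg_left (hsumR L) (by positivity)
            _ = π * C * q ^ (d + 2) * ((4 : ℝ) ^ (s * L) / 4 ^ ((s + 1) * (L + 1))) := by ring
            _ ≤ π * C * q ^ (d + 2) * (1 / 4 ^ (L + 1)) := by
                apply mul_le_mul_of_nonneg_left _ (by positivity)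
                rw [div_le_div_iff₀ (by positivity) (by positivity), one_mul, ← pow_add]
                apply pow_le_pow_right₀ (by norm_num)
                nlinarith
      _ = π * C * q ^ (d + 2) * ∑ L ∈ Finset.range (n + 1), (1 : ℝ) / 4 ^ (L + 1) := by
          rw [Finset.mul_sum]
      _ ≤ π * C * q ^ (d + 2) * 1 := mul_le_mul_of_nonneg_left (hgeo _) (by positivity)
      _ = π * C * q ^ (d + 2) := mul_one _
  -- the bad set is small
  set Bd := Finset.univ.filter (fun u : Fin (d + 2) → ZMod q => BadInj d n q u) with hBd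
  have hBcard : (Bd.card : ℝ) ≤ q ^ (d + 2) / 4 := by
    have h1 := card_badInj d n q hn hnq
    have h2 : (Bd.card : ℝ) * q ≤ (2 * n) ^ d * q ^ (d + 2) := by exact_mod_cast h1
    have h3 : (4 : ℝ) * (2 * n) ^ d ≤ q := by exact_mod_cast hinj
    have h4 : (Bd.card : ℝ) * q ≤ q ^ (d + 2) / 4 * q := by
      calc (Bd.card : ℝ) * q ≤ (2 * n) ^ d * q ^ (d + 2) := h2
        _ = (4 * (2 * n) ^ d) * (q ^ (d + 2) / 4) := by ring
        _ ≤ q * (q ^ (d + 2) / 4) := mul_le_mul_of_nonneg_right h3 (by positivity)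
        _ = q ^ (d + 2) / 4 * q := by ring
    exact le_of_mul_le_mul_right h4 hq0
  -- contradiction argument
  by_contra hcon
  push Not at hcon
  have hbig : ∀ u, u ∉ Bd → 2 * π * C < g u := by
    intro u hu
    have hu' : ¬ BadInj d n q u := by
      intro h; exact hu (Finset.mem_filter.mpr ⟨Finset.mem_univ _, h⟩)
    obtain ⟨L, hL, hlt⟩ := hcon u hu'
    refine lt_of_lt_of_le hlt ?_
    exact Finset.single_le_sum (f := fun L => (4 : ℝ) ^ (s * L) *
      (mu (manySet d n q L u)).toReal) (fun L _ => by positivity)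
      (Finset.mem_range.mpr (by omega))
  have hgnn : ∀ u, 0 ≤ g u := fun u => Finset.sum_nonneg (fun L _ => by positivity)
  have hcardc : (Bdᶜ.card : ℝ) = q ^ (d + 2) - Bd.card := by
    rw [Finset.card_compl, Nat.cast_sub (Finset.card_le_univ _)]
    congr 1
    simp [ZMod.card]
  have h5 : (Bdᶜ.card : ℝ) * (2 * π * C) ≤ ∑ u, g u := by
    calc (Bdᶜ.card : ℝ) * (2 * π * C) = ∑ u ∈ Bdᶜ, (2 * π * C) := by
          rw [Finset.sum_const, nsmul_eq_mul]
      _ ≤ ∑ u ∈ Bdᶜ, g u := Finset.sum_le_sum (fun u hu =>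
          (hbig u (Finset.mem_compl.mp hu)).le)
      _ ≤ ∑ u, g u := Finset.sum_le_sum_of_subset_of_nonneg (Finset.subset_univ _)
          (fun u _ _ => hgnn u)
  rw [hcardc] at h5
  have hQ : (0 : ℝ) < q ^ (d + 2) := by positivity
  have hPC : 0 < π * C := by positivity
  have h6 : (q ^ (d + 2) * (3 / 4)) * (2 * π * C) ≤ π * C * q ^ (d + 2) := by
    calc ((q : ℝ) ^ (d + 2) * (3 / 4)) * (2 * π * C) ≤ (q ^ (d + 2) - Bd.card) * (2 * π * C) := by
          apply mul_le_mul_of_nonneg_right _ (by positivity)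
          linarith
      _ ≤ ∑ u, g u := h5
      _ ≤ _ := hgsum
  nlinarith [mul_pos hQ hPC]

end Pool.Agent.Strips47
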