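import Mathlib

set_option autoImplicit false

namespace Pool.Agent.Strips47

open Finset Real

lemma harmonic_real (n : ℕ) :
    ∑ i ∈ Finset.range n, 1 / ((i : ℝ) + 1) ≤ 1 + Real.log n := by
  have h := harmonic_le_one_add_log n
  have h2 : ((harmonic n : ℚ) : ℝ) = ∑ i ∈ Finset.range n, 1 / ((i : ℝ) + 1) := by
    rw [harmonic]
    push_cast
    apply Finset.sum_congr rfl
    intro i _
    rw [one_div]
  rw [← h2]
  exact h

/-- Choice of the two integer parameters. -/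
lemma params (s : ℕ) :
    ∃ h H : ℕ, 1 ≤ H ∧ 4 ≤ h ∧ s ≤ h ∧ ∑ i ∈ Finset.range h, 1 / ((i : ℝ) + 1) ≤ H ∧
      4 * H * (s + 1) + 2 ≤ 2 * h ∧ (h : ℝ) ≤ 30 * ((s + 1) * Real.log (s + 2)) ∧
      (s : ℝ) * Real.log h ≤ h := by
  set ℓ : ℝ := Real.log (s + 2) with hℓ
  have hs0 : (0 : ℝ) ≤ s := Nat.cast_nonneg s
  have h2l : Real.log 2 ≤ ℓ := Real.log_le_log (by norm_num) (by linarith)
  have hl2 := Real.log_two_gt_d9
  have hl2' := Real.log_two_lt_d9
  have hℓ1 : 0.69 ≤ ℓ := by linarith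
  set H : ℕ := ⌈8 * ℓ⌉₊ with hH
  have hH1 : 8 * ℓ ≤ H := Nat.le_ceil _
  have hH2 : (H : ℝ) < 8 * ℓ + 1 := Nat.ceil_lt_add_one (by linarith)
  have hHpos : (0 : ℝ) < H := by linarith
  have hH1' : 1 ≤ H := by
    have : (0 : ℝ) < (H : ℝ) := hHpos
    have : 0 < H := by exact_mod_cast this
    omega
  have hH6 : 6 ≤ H := by
    have : (5 : ℝ) < (H : ℝ) := by linarith
    have : 5 < H := by exact_mod_cast this
    omega
  have hlogh : 1 + Real.log ((3 * H * (s + 1) : ℕ) : ℝ) ≤ H := by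
    push_cast
    have e1 : Real.log (3 * (H : ℝ) * ((s : ℝ) + 1)) =
        Real.log (3 * H / 16) + Real.log 16 + Real.log ((s : ℝ) + 1) := by
      rw [← Real.log_mul (by positivity) (by norm_num), ← Real.log_mul (by positivity)
        (by positivity)]
      congr 1; ring
    have e2 : Real.log (3 * (H : ℝ) / 16) ≤ 3 * H / 16 - 1 :=
      Real.log_le_sub_one_of_pos (by positivity)
    have e3 : Real.log 16 = 4 * Real.log 2 := by
      rw [show (16 : ℝ) = 2 ^ 4 by norm_num, Real.log_pow]; norm_num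
    have e4 : Real.log ((s : ℝ) + 1) ≤ ℓ := Real.log_le_log (by linarith) (by linarith)
    rw [e1, e3]
    linarith
  refine ⟨3 * H * (s + 1), H, hH1', ?_, ?_, ?_, ?_, ?_, ?_⟩
  · nlinarith
  · nlinarith
  · exact (harmonic_real _).trans hlogh
  · nlinarith
  · push_cast
    have h1 : (1 : ℝ) ≤ 2 * ℓ := by linarith
    have h2 : 3 * (H : ℝ) ≤ 30 * ℓ := by linarith
    calc 3 * (H : ℝ) * ((s : ℝ) + 1) ≤ 30 * ℓ * ((s : ℝ) + 1) :=
          mul_le_mul_of_nonneg_right h2 (by linarith)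
      _ = 30 * (((s : ℝ) + 1) * ℓ) := by ring
  · have h1 : Real.log ((3 * H * (s + 1) : ℕ) : ℝ) ≤ H := by linarith
    calc (s : ℝ) * Real.log ((3 * H * (s + 1) : ℕ) : ℝ) ≤ s * H :=
          mul_le_mul_of_nonneg_left h1 hs0
      _ ≤ ((3 * H * (s + 1) : ℕ) : ℝ) := by
          push_cast
          nlinarith

/-- The constant is at most `exp (10 h ^ 2)`. -/
lemma const_le (s h d n0 : ℕ) (hd : d + 2 = 2 * h) (hh : 4 ≤ h) (hsh : s ≤ h)
    (hlog : (s : ℝ) * Real.log h ≤ h) (hn0 : n0 = 2 ^ (d + 3) + 2 * h.factorial + 1) :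
    2 * π * ((h : ℝ) * (2 * 3 ^ (d + 3) * 2 ^ (d + 1)) ^ h) * 4 ^ s + π * (n0 : ℝ) ^ s ≤
      Real.exp (10 * (h : ℝ) ^ 2) := by
  have hhR : (4 : ℝ) ≤ h := by exact_mod_cast hh
  have hsR : (s : ℝ) ≤ h := by exact_mod_cast hsh
  have hs0 : (0 : ℝ) ≤ s := Nat.cast_nonneg s
  have he1 := Real.exp_one_gt_d9
  have hpi4 : π ≤ 3.15 := Real.pi_lt_d2.le
  have hpi := Real.pi_pos
  have e2 : (7.3 : ℝ) ≤ Real.exp 2 := by
    have : Real.exp 2 = Real.exp 1 * Real.exp 1 := by rw [← Real.exp_add]; norm_num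
    rw [this]; nlinarith
  have h2e : (2 : ℝ) ≤ Real.exp 1 := by linarith
  have h3e : (3 : ℝ) ≤ Real.exp 2 := by linarith
  have h4e : (4 : ℝ) ≤ Real.exp 2 := by linarith
  have h5e : (5 : ℝ) ≤ Real.exp 2 := by linarith
  have pow_exp : ∀ (x c : ℝ) (m : ℕ), 0 ≤ x → x ≤ Real.exp c → x ^ m ≤ Real.exp (m * c) := by
    intro x c m h0 hx
    rw [Real.exp_nat_mul]
    exact pow_le_pow_left₀ h0 hx m
  -- the number A
  have hA : (2 * 3 ^ (d + 3) * 2 ^ (d + 1) : ℝ) ≤ Real.exp (8 * h) := by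
    have h1 : (2 * 3 ^ (d + 3) * 2 ^ (d + 1) : ℝ) = 3 ^ (2 * h + 1) * 2 ^ (2 * h) := by
      have e3 : d + 3 = 2 * h + 1 := by omega
      have e4 : 2 * h = (d + 1) + 1 := by omega
      rw [e3, e4, pow_succ (2 : ℝ) (d + 1)]; ring
    rw [h1]
    have h3 := pow_exp 3 2 (2 * h + 1) (by norm_num) h3e
    have h4 := pow_exp 2 1 (2 * h) (by norm_num) h2e
    calc (3 : ℝ) ^ (2 * h + 1) * 2 ^ (2 * h) ≤
        Real.exp (((2 * h + 1 : ℕ) : ℝ) * 2) * Real.exp (((2 * h : ℕ) : ℝ) * 1) :=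
          mul_le_mul h3 h4 (by positivity) (Real.exp_pos _).le
      _ = Real.exp (6 * h + 2) := by
          rw [← Real.exp_add]; congr 1; push_cast; ring
      _ ≤ Real.exp (8 * h) := Real.exp_le_exp.mpr (by linarith)
  have hAh : (2 * 3 ^ (d + 3) * 2 ^ (d + 1) : ℝ) ^ h ≤ Real.exp (8 * (h : ℝ) ^ 2) := by
    have := pow_exp _ (8 * h) h (by positivity) hA
    calc _ ≤ _ := this
      _ = Real.exp (8 * (h : ℝ) ^ 2) := by congr 1; ring
  have hhe : (h : ℝ) ≤ Real.exp h := by linarith [Real.add_one_le_exp (h : ℝ)]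
  have h4s : (4 : ℝ) ^ s ≤ Real.exp (2 * h) := by
    calc (4 : ℝ) ^ s ≤ Real.exp ((s : ℝ) * 2) := pow_exp 4 2 s (by norm_num) h4e
      _ ≤ Real.exp (2 * h) := Real.exp_le_exp.mpr (by linarith)
  have hterm1 : 2 * π * ((h : ℝ) * (2 * 3 ^ (d + 3) * 2 ^ (d + 1)) ^ h) * 4 ^ s ≤
      Real.exp (9 * (h : ℝ) ^ 2) := by
    calc 2 * π * ((h : ℝ) * (2 * 3 ^ (d + 3) * 2 ^ (d + 1)) ^ h) * 4 ^ s
        ≤ Real.exp 2 * (Real.exp h * Real.exp (8 * (h : ℝ) ^ 2)) * Real.exp (2 * h) := by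
          apply mul_le_mul _ h4s (by positivity) (by positivity)
          apply mul_le_mul (by linarith) _ (by positivity) (by positivity)
          exact mul_le_mul hhe hAh (by positivity) (by positivity)
      _ = Real.exp (2 + (h + 8 * (h : ℝ) ^ 2) + 2 * h) := by
          rw [← Real.exp_add, ← Real.exp_add, ← Real.exp_add]
      _ ≤ Real.exp (9 * (h : ℝ) ^ 2) := Real.exp_le_exp.mpr (by nlinarith)
  -- n0
  have hn0le : (n0 : ℝ) ≤ 5 * (h : ℝ) ^ h := by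
    have h1 : n0 ≤ 5 * h ^ h := by
      have e1 : 2 ^ (d + 3) = 2 * 4 ^ h := by
        have : d + 3 = 2 * h + 1 := by omega
        rw [this, pow_succ, pow_mul]; ring
      have e2 : 4 ^ h ≤ h ^ h := Nat.pow_le_pow_left hh h
      have e3 : h.factorial ≤ h ^ h := Nat.factorial_le_pow h
      have e4 : 1 ≤ h ^ h := Nat.one_le_pow _ _ (by omega)
      rw [hn0, e1]; omega
    exact_mod_cast h1
  have hhh : (h : ℝ) ^ h = Real.exp (h * Real.log h) := by
    rw [Real.exp_nat_mul, Real.exp_log (by linarith)]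
  have hterm2 : π * (n0 : ℝ) ^ s ≤ Real.exp (9 * (h : ℝ) ^ 2) := by
    calc π * (n0 : ℝ) ^ s ≤ π * (5 * (h : ℝ) ^ h) ^ s :=
          mul_le_mul_of_nonneg_left (pow_le_pow_left₀ (Nat.cast_nonneg _) hn0le s) hpi.le
      _ = π * (5 ^ s * ((h : ℝ) ^ h) ^ s) := by rw [mul_pow]
      _ ≤ Real.exp 2 * (Real.exp (2 * h) * Real.exp ((h : ℝ) ^ 2)) := by
          apply mul_le_mul (by linarith) _ (by positivity) (by positivity)
          apply mul_le_mul _ _ (by positivity) (by positivity)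
          · calc (5 : ℝ) ^ s ≤ Real.exp ((s : ℝ) * 2) := pow_exp 5 2 s (by norm_num) h5e
              _ ≤ Real.exp (2 * h) := Real.exp_le_exp.mpr (by linarith)
          · rw [hhh, ← Real.exp_nat_mul]
            apply Real.exp_le_exp.mpr
            calc (s : ℝ) * (h * Real.log h) = h * (s * Real.log h) := by ring
              _ ≤ h * h := mul_le_mul_of_nonneg_left hlog (by linarith)
              _ = (h : ℝ) ^ 2 := by ring
      _ = Real.exp (2 + (2 * h + (h : ℝ) ^ 2)) := by rw [← Real.exp_add, ← Real.exp_add]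
      _ ≤ Real.exp (9 * (h : ℝ) ^ 2) := Real.exp_le_exp.mpr (by nlinarith)
  calc _ ≤ Real.exp (9 * (h : ℝ) ^ 2) + Real.exp (9 * (h : ℝ) ^ 2) := add_le_add hterm1 hterm2
    _ = 2 * Real.exp (9 * (h : ℝ) ^ 2) := by ring
    _ ≤ Real.exp 1 * Real.exp (9 * (h : ℝ) ^ 2) :=
        mul_le_mul_of_nonneg_right h2e (Real.exp_pos _).le
    _ = Real.exp (1 + 9 * (h : ℝ) ^ 2) := by rw [← Real.exp_add]
    _ ≤ Real.exp (10 * (h : ℝ) ^ 2) := Real.exp_le_exp.mpr (by nlinarith)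

end Pool.Agent.Strips47
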