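import Pool.Agent.Strips47.Points
import Pool.Agent.Strips47.Params

set_option autoImplicit false

namespace Pool.Agent.Strips47

open Finset MeasureTheory Real

lemma geo_le (m : ℕ) : ∑ L ∈ Finset.range m, (1 : ℝ) / 4 ^ (L + 1) ≤ 1 := by
  have h : ∑ j ∈ Finset.range m, (1 : ℝ) / 4 ^ (j + 1) = (1 - 1 / 4 ^ m) / 3 := by
    induction m with
    | zero => simp
    | succ m ih =>
      rw [Finset.sum_range_succ, ih, pow_succ]; field_simp; ring
  rw [h]
  have : (0 : ℝ) < 1 / 4 ^ m := by positivity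
  linarith

open Classical in
lemma card_many_le (s d n q h H L : ℕ) (θ : ℝ) (hH : 1 ≤ H)
    (hharm : ∑ i ∈ Finset.range h, 1 / ((i : ℝ) + 1) ≤ H)
    (hd : d + 2 = 2 * h) (hds : 4 * H * (s + 1) ≤ d) [hq : Fact q.Prime]
    (hqn : n ^ (d + 1) ≤ 2 * q) (hqs : (h).factorial * n ^ (h) < q) (hn : 1 ≤ n) :
    ((Finset.univ.filter (fun u : Fin (d + 2) → ZMod q => θ ∈ manySet d n q L u)).card : ℝ) ≤
      (h : ℝ) * (2 * 3 ^ (d + 3) * 2 ^ (d + 1)) ^ (h) * q ^ (d + 2) / 4 ^ ((s + 1) * (L + 1)) := by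
  have h1 := main_count s d n q h H L (cos θ) (sin θ)
          (by have := Real.sin_sq_add_cos_sq θ; linarith) hH hharm hd hds hqn hqs hn
  refine le_trans (le_of_eq ?_) h1
  congr 2
  ext u
  simp [manySet]

lemma sum_nu_le (ν : Measure ℝ) [IsFiniteMeasure ν] (s d n q h H L : ℕ) (hH : 1 ≤ H)
    (hharm : ∑ i ∈ Finset.range h, 1 / ((i : ℝ) + 1) ≤ H)
    (hd : d + 2 = 2 * h) (hds : 4 * H * (s + 1) ≤ d) [hq : Fact q.Prime]
    (hqn : n ^ (d + 1) ≤ 2 * q) (hqs : (h).factorial * n ^ (h) < q) (hn : 1 ≤ n) :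
    ∑ u : Fin (d + 2) → ZMod q, (ν (manySet d n q L u)).toReal ≤
      (h : ℝ) * (2 * 3 ^ (d + 3) * 2 ^ (d + 1)) ^ (h) * q ^ (d + 2) / 4 ^ ((s + 1) * (L + 1)) *
        (ν Set.univ).toReal := by
  classical
  set C : ℝ := (h : ℝ) * (2 * 3 ^ (d + 3) * 2 ^ (d + 1)) ^ (h) *
        q ^ (d + 2) / 4 ^ ((s + 1) * (L + 1)) with hC
  have hC0 : 0 ≤ C := by positivity
  have hmain : ∑ u : Fin (d + 2) → ZMod q, ν (manySet d n q L u) ≤
      ENNReal.ofReal C * ν Set.univ := by
    calc ∑ u : Fin (d + 2) → ZMod q, ν (manySet d n q L u)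
        = ∑ u : Fin (d + 2) → ZMod q, ∫⁻ θ, (manySet d n q L u).indicator 1 θ ∂ν := by
          apply Finset.sum_congr rfl
          intro u _
          rw [lintegral_indicator_one (measurable_manySet d n q L u)]
      _ = ∫⁻ θ, ∑ u : Fin (d + 2) → ZMod q, (manySet d n q L u).indicator 1 θ ∂ν := by
          rw [lintegral_finsetSum]
          intro u _
          exact measurable_one.indicator (measurable_manySet d n q L u)
      _ ≤ ∫⁻ _, ENNReal.ofReal C ∂ν := by
          apply lintegral_mono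
          intro θ
          have h1 := card_many_le s d n q h H L θ hH hharm hd hds hqn hqs hn
          have h2 : ∑ u : Fin (d + 2) → ZMod q,
              (manySet d n q L u).indicator (1 : ℝ → ENNReal) θ =
              ((Finset.univ.filter (fun u : Fin (d + 2) → ZMod q =>
                θ ∈ manySet d n q L u)).card : ENNReal) := by
            rw [Finset.card_filter]
            push_cast
            apply Finset.sum_congr rfl
            intro u _
            simp only [Set.indicator, Pi.one_apply]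
          show ∑ u : Fin (d + 2) → ZMod q,
            (manySet d n q L u).indicator (1 : ℝ → ENNReal) θ ≤ _
          rw [h2, ← ENNReal.ofReal_natCast]
          exact ENNReal.ofReal_le_ofReal h1
      _ = ENNReal.ofReal C * ν Set.univ := by
          rw [lintegral_const]
  have hfin : ∀ u, ν (manySet d n q L u) ≠ ⊤ := fun u => measure_ne_top ν _
  rw [← ENNReal.toReal_sum (fun u _ => hfin u)]
  have h3 : ENNReal.ofReal C * ν Set.univ = ENNReal.ofReal (C * (ν Set.univ).toReal) := by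
    rw [ENNReal.ofReal_mul hC0, ENNReal.ofReal_toReal (measure_ne_top ν _)]
  rw [h3] at hmain
  exact ENNReal.toReal_le_of_le_ofReal (by positivity) hmain

open Classical in
lemma card_good_ge (d n q : ℕ) [hq : Fact q.Prime] (hn : 1 ≤ n) (hinj : 4 * (2 * n) ^ d ≤ q)
    (hnq : n < q) :
    (q : ℝ) ^ (d + 2) * (3 / 4) ≤
      ((Finset.univ.filter (fun u : Fin (d + 2) → ZMod q => ¬ BadInj d n q u)).card : ℝ) := by
  have hq0 : (0 : ℝ) < q := by exact_mod_cast hq.out.pos
  set Bd := Finset.univ.filter (fun u : Fin (d + 2) → ZMod q => BadInj d n q u) with hBd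
  have hBcard : (Bd.card : ℝ) ≤ q ^ (d + 2) / 4 := by
    have h1 := card_badInj d n q hn hnq
    have h2 : (Bd.card : ℝ) * q ≤ (2 * n) ^ d * q ^ (d + 2) := by exact_mod_cast h1
    have h3 : (4 : ℝ) * (2 * n) ^ d ≤ q := by exact_mod_cast hinj
    have h4 : (Bd.card : ℝ) * q ≤ q ^ (d + 2) / 4 * q := by
      calc (Bd.card : ℝ) * q ≤ (2 * n) ^ d * q ^ (d + 2) := h2
        _ = (4 * (2 * n) ^ d) * (q ^ (d + 2) / 4) := by ring
        _ ≤ q * (q ^ (d + 2) / 4) := mul_le_mul_of_nonneg_right h3 (by positivity)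
        _ = q ^ (d + 2) / 4 * q := by ring
    exact le_of_mul_le_mul_right h4 hq0
  have hsplit : (Bd.card : ℝ) +
      ((Finset.univ.filter (fun u : Fin (d + 2) → ZMod q => ¬ BadInj d n q u)).card : ℝ) =
      q ^ (d + 2) := by
    have h := Finset.card_filter_add_card_filter_not (s := (Finset.univ :
      Finset (Fin (d + 2) → ZMod q))) (fun u => BadInj d n q u)
    rw [← Nat.cast_add, h]
    simp [ZMod.card]
  linarith

/-- A good `u` for a finite measure `ν`. -/
lemma exists_good_nu (ν : Measure ℝ) [IsFiniteMeasure ν] (s d n q h H : ℕ) (hh : 1 ≤ h)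
    (hH : 1 ≤ H)
    (hharm : ∑ i ∈ Finset.range h, 1 / ((i : ℝ) + 1) ≤ H)
    (hd : d + 2 = 2 * h) (hds : 4 * H * (s + 1) ≤ d) [hq : Fact q.Prime]
    (hqn : n ^ (d + 1) ≤ 2 * q) (hqs : (h).factorial * n ^ (h) < q) (hn : 1 ≤ n)
    (hinj : 4 * (2 * n) ^ d ≤ q) (hnq : n < q) :
    ∃ u : Fin (d + 2) → ZMod q, ¬ BadInj d n q u ∧ ∀ L ≤ n,
      (4 : ℝ) ^ (s * L) * (ν (manySet d n q L u)).toReal ≤
        2 * ((h : ℝ) * (2 * 3 ^ (d + 3) * 2 ^ (d + 1)) ^ (h)) * (ν Set.univ).toReal := by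
  classical
  have hq0 : (0 : ℝ) < q := by exact_mod_cast hq.out.pos
  have hhR : (1 : ℝ) ≤ h := by exact_mod_cast hh
  set C : ℝ := (h : ℝ) * (2 * 3 ^ (d + 3) * 2 ^ (d + 1)) ^ (h) with hC
  have hC0 : 0 < C := by positivity
  set m : ℝ := (ν Set.univ).toReal with hm
  have hm0 : 0 ≤ m := ENNReal.toReal_nonneg
  have hsumR : ∀ L, ∑ u : Fin (d + 2) → ZMod q, (ν (manySet d n q L u)).toReal ≤
      C * q ^ (d + 2) / 4 ^ ((s + 1) * (L + 1)) * m := fun L =>
    sum_nu_le ν s d n q h H L hH hharm hd hds hqn hqs hn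
  set g : (Fin (d + 2) → ZMod q) → ℝ := fun u =>
    ∑ L ∈ Finset.range (n + 1), (4 : ℝ) ^ (s * L) * (ν (manySet d n q L u)).toReal with hg
  have hgsum : ∑ u, g u ≤ C * m * q ^ (d + 2) := by
    calc ∑ u, g u = ∑ L ∈ Finset.range (n + 1), ∑ u : Fin (d + 2) → ZMod q,
          (4 : ℝ) ^ (s * L) * (ν (manySet d n q L u)).toReal := Finset.sum_comm
      _ = ∑ L ∈ Finset.range (n + 1), (4 : ℝ) ^ (s * L) * ∑ u : Fin (d + 2) → ZMod q,
          (ν (manySet d n q L u)).toReal := by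
          apply Finset.sum_congr rfl; intro L _; rw [Finset.mul_sum]
      _ ≤ ∑ L ∈ Finset.range (n + 1), C * m * q ^ (d + 2) * (1 / 4 ^ (L + 1)) := by
          apply Finset.sum_le_sum
          intro L _
          calc (4 : ℝ) ^ (s * L) * ∑ u : Fin (d + 2) → ZMod q, (ν (manySet d n q L u)).toReal
              ≤ (4 : ℝ) ^ (s * L) * (C * q ^ (d + 2) / 4 ^ ((s + 1) * (L + 1)) * m) :=
                mul_le_mul_of_nonneg_left (hsumR L) (by positivity)
            _ = C * m * q ^ (d + 2) * ((4 : ℝ) ^ (s * L) / 4 ^ ((s + 1) * (L + 1))) := by ring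
            _ ≤ C * m * q ^ (d + 2) * (1 / 4 ^ (L + 1)) := by
                apply mul_le_mul_of_nonneg_left _ (by positivity)
                rw [div_le_div_iff₀ (by positivity) (by positivity), one_mul, ← pow_add]
                apply pow_le_pow_right₀ (by norm_num)
                nlinarith
      _ = C * m * q ^ (d + 2) * ∑ L ∈ Finset.range (n + 1), (1 : ℝ) / 4 ^ (L + 1) := by
          rw [Finset.mul_sum]
      _ ≤ C * m * q ^ (d + 2) * 1 := mul_le_mul_of_nonneg_left (geo_le _) (by positivity)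
      _ = C * m * q ^ (d + 2) := mul_one _
  have hgood := card_good_ge d n q hn hinj hnq
  set Gd := Finset.univ.filter (fun u : Fin (d + 2) → ZMod q => ¬ BadInj d n q u) with hGd
  have hQ : (0 : ℝ) < q ^ (d + 2) := by positivity
  by_contra hcon
  push Not at hcon
  have hbig : ∀ u ∈ Gd, 2 * C * m < g u := by
    intro u hu
    have hu' : ¬ BadInj d n q u := (Finset.mem_filter.mp hu).2
    obtain ⟨L, hL, hlt⟩ := hcon u hu'
    refine lt_of_lt_of_le hlt ?_
    exact Finset.single_le_sum (f := fun L => (4 : ℝ) ^ (s * L) *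
      (ν (manySet d n q L u)).toReal) (fun L _ => by positivity)
      (Finset.mem_range.mpr (by omega))
  have hgnn : ∀ u, 0 ≤ g u := fun u => Finset.sum_nonneg (fun L _ => by positivity)
  have hne : Gd.Nonempty := by
    rw [← Finset.card_pos]
    have : (0 : ℝ) < Gd.card := lt_of_lt_of_le (by positivity) hgood
    exact_mod_cast this
  have h5 : (Gd.card : ℝ) * (2 * C * m) < ∑ u, g u := by
    calc (Gd.card : ℝ) * (2 * C * m) = ∑ u ∈ Gd, (2 * C * m) := by
          rw [Finset.sum_const, nsmul_eq_mul]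
      _ < ∑ u ∈ Gd, g u := Finset.sum_lt_sum_of_nonempty hne hbig
      _ ≤ ∑ u, g u := Finset.sum_le_sum_of_subset_of_nonneg (Finset.subset_univ _)
          (fun u _ _ => hgnn u)
  have hCm : 0 ≤ C * m := by positivity
  have h6 : (q ^ (d + 2) * (3 / 4)) * (2 * C * m) < C * m * q ^ (d + 2) := by
    calc ((q : ℝ) ^ (d + 2) * (3 / 4)) * (2 * C * m) ≤ (Gd.card : ℝ) * (2 * C * m) := by
          apply mul_le_mul_of_nonneg_right hgood (by positivity)
      _ < ∑ u, g u := h5
      _ ≤ _ := hgsum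
  nlinarith [mul_nonneg hCm hQ.le]

/-- Powers of a number by dyadic levels. -/
lemma pow_le_levels (s k n : ℕ) (hk : k ≤ n) :
    (k : ℝ) ^ s ≤ 1 + ∑ L ∈ Finset.range (n + 1),
      if 4 ^ L < k then (4 : ℝ) ^ (s * (L + 1)) else 0 := by
  have hnn : ∀ L ∈ Finset.range (n + 1),
      (0 : ℝ) ≤ if 4 ^ L < k then (4 : ℝ) ^ (s * (L + 1)) else 0 := by
    intro L _; split_ifs <;> positivity
  rcases Nat.lt_or_ge k 2 with h | h
  · have h1 : (k : ℝ) ≤ 1 := by exact_mod_cast (by omega : k ≤ 1)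
    have h2 : (k : ℝ) ^ s ≤ 1 := pow_le_one₀ (Nat.cast_nonneg k) h1
    linarith [Finset.sum_nonneg hnn]
  · set L := Nat.log 4 (k - 1) with hL
    have h1 : 4 ^ L ≤ k - 1 := Nat.pow_log_le_self 4 (by omega)
    have h2 : k - 1 < 4 ^ (L + 1) := Nat.lt_pow_succ_log_self (by norm_num) _
    have h3 : 4 ^ L < k := by omega
    have h4 : k ≤ 4 ^ (L + 1) := by omega
    have h5 : L < n + 1 := by
      have : L < 4 ^ L := Nat.lt_pow_self (by norm_num)
      omega
    have h6 : (k : ℝ) ^ s ≤ (4 : ℝ) ^ (s * (L + 1)) := by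
      have : (k : ℝ) ≤ (4 : ℝ) ^ (L + 1) := by exact_mod_cast h4
      calc (k : ℝ) ^ s ≤ ((4 : ℝ) ^ (L + 1)) ^ s := pow_le_pow_left₀ (Nat.cast_nonneg k) this s
        _ = (4 : ℝ) ^ (s * (L + 1)) := by rw [← pow_mul]; congr 1; ring
    have h7 := Finset.single_le_sum hnn (Finset.mem_range.mpr h5)
    simp only [h3, if_true] at h7
    linarith

open Classical in
/-- The `s`-th moment over the good `u` in one direction. -/
lemma moment_le (s d n q h H : ℕ) (θ : ℝ) (hH : 1 ≤ H)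
    (hharm : ∑ i ∈ Finset.range h, 1 / ((i : ℝ) + 1) ≤ H)
    (hd : d + 2 = 2 * h) (hds : 4 * H * (s + 1) ≤ d) [hq : Fact q.Prime]
    (hqn : n ^ (d + 1) ≤ 2 * q) (hqs : (h).factorial * n ^ (h) < q) (hn : 1 ≤ n)
    (G : Finset (Fin (d + 2) → ZMod q)) (k : (Fin (d + 2) → ZMod q) → ℕ)
    (hk : ∀ u ∈ G, k u ≤ n ∧ k u ≤ (lat d n q (cos θ) (sin θ) u 0).card) :
    ∑ u ∈ G, (k u : ℝ) ^ s ≤
      G.card + (h : ℝ) * (2 * 3 ^ (d + 3) * 2 ^ (d + 1)) ^ (h) * q ^ (d + 2) := by
  set C : ℝ := (h : ℝ) * (2 * 3 ^ (d + 3) * 2 ^ (d + 1)) ^ (h) with hC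
  have hC0 : 0 ≤ C := by positivity
  calc ∑ u ∈ G, (k u : ℝ) ^ s
      ≤ ∑ u ∈ G, (1 + ∑ L ∈ Finset.range (n + 1),
          if θ ∈ manySet d n q L u then (4 : ℝ) ^ (s * (L + 1)) else 0) := by
        apply Finset.sum_le_sum
        intro u hu
        refine (pow_le_levels s (k u) n (hk u hu).1).trans ?_
        gcongr with L _
        by_cases h1 : 4 ^ L < k u
        · have h2 : θ ∈ manySet d n q L u := lt_of_lt_of_le h1 (hk u hu).2
          simp [h1, h2]
        · simp only [h1, if_false]; split_ifs <;> positivity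
    _ = G.card + ∑ L ∈ Finset.range (n + 1), ∑ u ∈ G,
          (if θ ∈ manySet d n q L u then (4 : ℝ) ^ (s * (L + 1)) else 0) := by
        rw [Finset.sum_add_distrib, Finset.sum_comm]
        simp
    _ ≤ G.card + ∑ L ∈ Finset.range (n + 1), C * q ^ (d + 2) * (1 / 4 ^ (L + 1)) := by
        gcongr with L _
        calc ∑ u ∈ G, (if θ ∈ manySet d n q L u then (4 : ℝ) ^ (s * (L + 1)) else 0)
            ≤ ∑ u, (if θ ∈ manySet d n q L u then (4 : ℝ) ^ (s * (L + 1)) else 0) :=
              Finset.sum_le_sum_of_subset_of_nonneg (Finset.subset_univ _)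
                (fun u _ _ => by split_ifs <;> positivity)
          _ = ((Finset.univ.filter (fun u : Fin (d + 2) → ZMod q =>
                θ ∈ manySet d n q L u)).card : ℝ) * (4 : ℝ) ^ (s * (L + 1)) := by
              rw [← Finset.sum_filter, Finset.sum_const, nsmul_eq_mul]
          _ ≤ (C * q ^ (d + 2) / 4 ^ ((s + 1) * (L + 1))) * (4 : ℝ) ^ (s * (L + 1)) :=
              mul_le_mul_of_nonneg_right
                (card_many_le s d n q h H L θ hH hharm hd hds hqn hqs hn) (by positivity)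
          _ = C * q ^ (d + 2) * (1 / 4 ^ (L + 1)) := by
              have h4 : (4 : ℝ) ^ ((s + 1) * (L + 1)) = 4 ^ (s * (L + 1)) * 4 ^ (L + 1) := by
                rw [← pow_add]; congr 1; ring
              rw [h4]
              field_simp
    _ = G.card + C * q ^ (d + 2) * ∑ L ∈ Finset.range (n + 1), (1 : ℝ) / 4 ^ (L + 1) := by
        rw [Finset.mul_sum]
    _ ≤ G.card + C * q ^ (d + 2) * 1 := by
        have := mul_le_mul_of_nonneg_left (geo_le (n + 1)) (show 0 ≤ C * q ^ (d + 2) by positivity)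
        linarith
    _ = _ := by ring

end Pool.Agent.Strips47
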