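import Pool.Agent.Strips47.Final

set_option autoImplicit false

namespace Pool.Agent.Strips47

open Finset MeasureTheory Real

/-- `n` points of the box in one residue class. -/
lemma exists_class (d n q : ℕ) [hq : Fact q.Prime] (hqn : q ≤ n ^ (d + 1))
    (u : Fin (d + 2) → ZMod q) :
    ∃ X : Fin n → (Fin (d + 2) → ℤ), Function.Injective X ∧
      (∀ i k, 0 ≤ X i k ∧ X i k < n) ∧
      ∀ i j, ∑ l, u l * ((X i l - X j l : ℤ) : ZMod q) = 0 := by
  classical
  let box : Finset (Fin (d + 2) → ℤ) := Fintype.piFinset (fun _ => Finset.Ico (0 : ℤ) n)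
  let f : (Fin (d + 2) → ℤ) → ZMod q := fun X => ∑ l, u l * (X l : ZMod q)
  have hbox : box.card = n ^ (d + 2) := by
    simp [box, Fintype.card_piFinset]
  obtain ⟨σ, _, hσ⟩ := Finset.exists_le_card_fiber_of_mul_le_card_of_maps_to
    (s := box) (t := (Finset.univ : Finset (ZMod q))) (f := f) (n := n)
    (fun _ _ => Finset.mem_univ _) ⟨0, Finset.mem_univ _⟩ (by
      rw [hbox, Finset.card_univ, ZMod.card, pow_succ]
      exact Nat.mul_le_mul_right _ hqn)
  set F := box.filter (fun X => f X = σ) with hF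
  obtain ⟨e⟩ : Nonempty (Fin n ↪ F) := by
    rw [Function.Embedding.nonempty_iff_card_le]
    simpa using hσ
  refine ⟨fun i => (e i : Fin (d + 2) → ℤ), ?_, ?_, ?_⟩
  · intro i j h
    exact e.injective (Subtype.ext h)
  · intro i k
    have h1 := (Finset.mem_filter.mp (e i).2).1
    rw [Fintype.mem_piFinset] at h1
    exact Finset.mem_Ico.mp (h1 k)
  · intro i j
    have h1 : f (e i) = σ := (Finset.mem_filter.mp (e i).2).2
    have h2 : f (e j) = σ := (Finset.mem_filter.mp (e j).2).2
    have h3 : ∑ l, u l * ((((e i : Fin (d + 2) → ℤ) l - (e j : Fin (d + 2) → ℤ) l : ℤ)) : ZMod q) =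
        f (e i) - f (e j) := by
      simp only [f]
      rw [← Finset.sum_sub_distrib]
      apply Finset.sum_congr rfl
      intro l _
      push_cast; ring
    rw [h3, h1, h2, sub_self]

/-- The projected points. -/
noncomputable def proj {d n : ℕ} (X : Fin n → (Fin (d + 2) → ℤ)) (i : Fin n) : ℝ × ℝ :=
  ((X i 0 : ℝ) / n, (X i 1 : ℝ) / n)

lemma proj_injective (d n q : ℕ) (hn : 0 < n) (u : Fin (d + 2) → ZMod q)
    (hu : ¬ BadInj d n q u) (X : Fin n → (Fin (d + 2) → ℤ)) (hX : Function.Injective X)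
    (hb : ∀ i k, 0 ≤ X i k ∧ X i k < n)
    (h0 : ∀ i j, ∑ l, u l * ((X i l - X j l : ℤ) : ZMod q) = 0) :
    Function.Injective (proj X) := by
  intro i j hij
  have hn0 : (n : ℝ) ≠ 0 := by
    have : (0 : ℝ) < n := by exact_mod_cast hn
    exact this.ne'
  have h1 : (X i 0 : ℝ) / n = (X j 0 : ℝ) / n := congrArg Prod.fst hij
  have h2 : (X i 1 : ℝ) / n = (X j 1 : ℝ) / n := congrArg Prod.snd hij
  rw [div_left_inj' hn0] at h1 h2
  have h1' : X i 0 = X j 0 := by exact_mod_cast h1
  have h2' : X i 1 = X j 1 := by exact_mod_cast h2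
  by_contra hne
  apply hu
  refine ⟨fun l => X i l - X j l, ?_, ?_, ?_, ?_, h0 i j⟩
  · intro h
    apply hne
    apply hX
    funext l
    have := congrFun h l
    simp only [Pi.zero_apply] at this
    linarith
  · simp only; rw [h1', sub_self]
  · simp only; rw [h2', sub_self]
  · intro k
    have h3 := hb i k
    have h4 := hb j k
    simp only
    rw [abs_lt]; constructor <;> linarith [h3.1, h3.2, h4.1, h4.2]

lemma proj_mem (d n : ℕ) (hn : 0 < n) (X : Fin n → (Fin (d + 2) → ℤ))
    (hb : ∀ i k, 0 ≤ X i k ∧ X i k < n) (i : Fin n) :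
    0 ≤ (proj X i).1 ∧ (proj X i).1 ≤ 1 ∧ 0 ≤ (proj X i).2 ∧ (proj X i).2 ≤ 1 := by
  have hn0 : (0 : ℝ) < n := by exact_mod_cast hn
  have h0 := hb i 0
  have h1 := hb i 1
  have h0a : (0 : ℝ) ≤ (X i 0 : ℝ) := by exact_mod_cast h0.1
  have h0b : (X i 0 : ℝ) ≤ n := by exact_mod_cast h0.2.le
  have h1a : (0 : ℝ) ≤ (X i 1 : ℝ) := by exact_mod_cast h1.1
  have h1b : (X i 1 : ℝ) ≤ n := by exact_mod_cast h1.2.le
  simp only [proj]
  refine ⟨by positivity, ?_, by positivity, ?_⟩
  · rw [div_le_one hn0]; exact h0b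
  · rw [div_le_one hn0]; exact h1b

/-- The number of points in any strip of a given direction. -/
lemma strip_le (d n q : ℕ) (hn : 0 < n) (u : Fin (d + 2) → ZMod q)
    (X : Fin n → (Fin (d + 2) → ℤ)) (hX : Function.Injective X)
    (hb : ∀ i k, 0 ≤ X i k ∧ X i k < n)
    (h0 : ∀ i j, ∑ l, u l * ((X i l - X j l : ℤ) : ZMod q) = 0) (a b c : ℝ) :
    (Finset.univ.filter (fun i : Fin n =>
      |a * (proj X i).1 + b * (proj X i).2 - c| ≤ 1 / (n : ℝ))).card ≤
      (lat d n q a b u 0).card := by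
  classical
  have hn0 : (0 : ℝ) < n := by exact_mod_cast hn
  set F := Finset.univ.filter (fun i : Fin n =>
      |a * (proj X i).1 + b * (proj X i).2 - c| ≤ 1 / (n : ℝ)) with hF
  rcases F.eq_empty_or_nonempty with hE | ⟨i0, hi0⟩
  · rw [hE]; simp
  · apply Finset.card_le_card_of_injOn (fun i => fun l => X i l - X i0 l)
    · intro i hi
      rw [Finset.mem_coe, mem_lat]
      refine ⟨⟨?_, ?_⟩, h0 i i0⟩
      · intro k
        have h3 := hb i k
        have h4 := hb i0 k
        rw [pow_zero, mul_one, abs_le]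
        constructor <;> linarith [h3.1, h3.2, h4.1, h4.2]
      · have h1 := (Finset.mem_filter.mp hi).2
        have h2 := (Finset.mem_filter.mp hi0).2
        simp only [proj] at h1 h2
        rw [pow_zero, mul_one]
        push_cast
        have hid : a * ((X i 0 : ℝ) - X i0 0) + b * ((X i 1 : ℝ) - X i0 1) =
            n * ((a * ((X i 0 : ℝ) / n) + b * ((X i 1 : ℝ) / n) - c) -
              (a * ((X i0 0 : ℝ) / n) + b * ((X i0 1 : ℝ) / n) - c)) := by
          field_simp; ring
        rw [hid, abs_mul, abs_of_pos hn0]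
        calc (n : ℝ) * |_| ≤ n * (1 / n + 1 / n) :=
              mul_le_mul_of_nonneg_left ((abs_sub _ _).trans (add_le_add h1 h2)) hn0.le
          _ = 2 := by field_simp; norm_num
    · intro i _ j _ hij
      apply hX
      funext l
      have := congrFun hij l
      simp only at this
      linarith

end Pool.Agent.Strips47
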